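import Mathlib

set_option autoImplicit false

/-!
# Derivations of the coefficients of a polynomial in one variable, and prime factors
-/

namespace Pool.Agent.K4H28.SP

open Polynomial

variable {K : Type} [Field K] [CharZero K]

/-- The derivation `D` applied to the coefficients. -/
noncomputable def dP (D : Derivation ℚ K K) (p : K[X]) : K[X] :=
  ∑ i ∈ p.support, monomial i (D (p.coeff i))

theorem coeff_dP (D : Derivation ℚ K K) (p : K[X]) (i : ℕ) : (dP D p).coeff i = D (p.coeff i) := by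
  classical
  unfold dP
  rw [finsetSum_coeff]
  simp only [coeff_monomial]
  rw [Finset.sum_ite_eq']
  split_ifs with h
  · rfl
  · rw [notMem_support_iff.1 h, map_zero]

theorem dP_add (D : Derivation ℚ K K) (p q : K[X]) : dP D (p + q) = dP D p + dP D q := by
  ext i
  simp only [coeff_dP, coeff_add, map_add]

theorem dP_mul (D : Derivation ℚ K K) (p q : K[X]) :
    dP D (p * q) = dP D p * q + p * dP D q := by
  ext i
  rw [coeff_dP, coeff_mul, coeff_add, coeff_mul, coeff_mul, map_sum, ← Finset.sum_add_distrib]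
  refine Finset.sum_congr rfl fun x _ => ?_
  rw [Derivation.leibniz, coeff_dP, coeff_dP, smul_eq_mul, smul_eq_mul]
  ring

theorem dP_X_pow (D : Derivation ℚ K K) (n : ℕ) : dP D (X ^ n : K[X]) = 0 := by
  ext i
  rw [coeff_dP, coeff_X_pow, coeff_zero]
  split_ifs
  · exact D.map_one_eq_zero
  · exact map_zero D

theorem dP_zero (D : Derivation ℚ K K) : dP D (0 : K[X]) = 0 := by
  ext i
  rw [coeff_dP, coeff_zero, map_zero]

theorem natDegree_dP_le (D : Derivation ℚ K K) (p : K[X]) : (dP D p).natDegree ≤ p.natDegree := by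
  rw [natDegree_le_iff_coeff_eq_zero]
  intro i hi
  rw [coeff_dP, coeff_eq_zero_of_natDegree_lt hi, map_zero]

theorem dP_mem_degreeLT (D : Derivation ℚ K K) {p : K[X]} {n : ℕ} (h : p ∈ degreeLT K n) :
    dP D p ∈ degreeLT K n := by
  rw [mem_degreeLT, degree_lt_iff_coeff_zero] at h ⊢
  intro i hi
  rw [coeff_dP, h i hi, map_zero]

/-- A derivation for which the multiples of `h` are stable has the same property for the prime
factors of `h`. -/
theorem prime_dvd {T : K[X] → K[X]} (hT : ∀ f g, T (f * g) = T f * g + f * T g) {h ℓ : K[X]}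
    (h0 : h ≠ 0) (hd : h ∣ T h) (hℓ : Prime ℓ) (hℓh : ℓ ∣ h) : ℓ ∣ T ℓ := by
  have hT1 : T 1 = 0 := by
    have h1 := hT 1 1
    simp only [mul_one, one_mul] at h1
    exact left_eq_add.1 h1 |>.trans rfl
  have hpow : ∀ n : ℕ, T (ℓ ^ (n + 1)) = ((n : K[X]) + 1) * ℓ ^ n * T ℓ := by
    intro n
    induction n with
    | zero => simp
    | succ n ih =>
      rw [pow_succ, hT, ih]
      push_cast
      ring
  obtain ⟨n, u, hu, hn⟩ := WfDvdMonoid.max_power_factor h0 hℓ.irreducible
  obtain ⟨m, rfl⟩ : ∃ m, n = m + 1 := by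
    refine ⟨n - 1, ?_⟩
    rcases Nat.eq_zero_or_pos n with h1 | h1
    · exfalso
      apply hu
      rw [h1, pow_zero, one_mul] at hn
      rwa [hn] at hℓh
    · omega
  rw [hn, hT, hpow] at hd
  have h1 : ℓ ^ (m + 1) ∣ ((m : K[X]) + 1) * ℓ ^ m * T ℓ * u + ℓ ^ (m + 1) * T u :=
    (Dvd.intro _ rfl).trans hd
  have h2 : ℓ ^ (m + 1) ∣ ((m : K[X]) + 1) * ℓ ^ m * T ℓ * u :=
    (dvd_add_left (Dvd.intro _ rfl)).1 h1
  have h3 : ℓ ^ m * ℓ ∣ ℓ ^ m * (((m : K[X]) + 1) * T ℓ * u) := by
    rw [← pow_succ]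
    convert h2 using 1
    ring
  have h4 := (mul_dvd_mul_iff_left (pow_ne_zero m hℓ.ne_zero)).1 h3
  rcases hℓ.dvd_or_dvd h4 with h5 | h5
  · rcases hℓ.dvd_or_dvd h5 with h6 | h6
    · exfalso
      refine hℓ.not_isUnit (isUnit_of_dvd_unit h6 ?_)
      have : ((m : K[X]) + 1) = C ((m : K) + 1) := by simp
      rw [this, isUnit_C, isUnit_iff_ne_zero]
      exact Nat.cast_add_one_ne_zero m
    · exact h6
  · exact absurd h5 hu

end Pool.Agent.K4H28.SP
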