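import Mathlib

set_option autoImplicit false

/-!
# Spaces of binary forms with few multiples of the next degree

Binary forms are written as polynomials in one variable. A space `W` of binary forms generates in
the next degree a space `sh W = W + X W` of dimension at least `dim W + 1`, and if the dimension is
`dim W + 1` then `W` is the space of all multiples of one form.
-/

namespace Pool.Agent.K4H28.SP

open Polynomial Module

variable {K : Type} [Field K]

/-- Multiplication by a polynomial. -/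
noncomputable abbrev mu (κ : K[X]) : K[X] →ₗ[K] K[X] := LinearMap.mulLeft K κ

theorem mu_inj {κ : K[X]} (h : κ ≠ 0) : Function.Injective (mu κ) := by
  intro a b hab
  rw [LinearMap.mulLeft_apply, LinearMap.mulLeft_apply] at hab
  exact mul_left_cancel₀ h hab

/-- The space generated in the next degree. -/
noncomputable def sh (W : Submodule K K[X]) : Submodule K K[X] := W ⊔ W.map (mu X)

theorem sh_mono {V W : Submodule K K[X]} (h : V ≤ W) : sh V ≤ sh W :=
  sup_le_sup h (Submodule.map_mono h)

instance sh_fin (W : Submodule K K[X]) [FiniteDimensional K W] : FiniteDimensional K (sh W) := by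
  unfold sh
  infer_instance

theorem le_sh (W : Submodule K K[X]) : W ≤ sh W := le_sup_left

theorem X_mem_sh {W : Submodule K K[X]} {f : K[X]} (h : f ∈ W) : X * f ∈ sh W :=
  Submodule.mem_sup_right ⟨f, h, rfl⟩

theorem sh_le {V W : Submodule K K[X]} (h : V ≤ W) (h' : ∀ f ∈ V, X * f ∈ W) : sh V ≤ W := by
  refine sup_le h ?_
  rintro _ ⟨f, hf, rfl⟩
  exact h' f hf

/-- The elements whose multiples of the next degree belong to the space. -/
noncomputable def dn (W : Submodule K K[X]) : Submodule K K[X] := W ⊓ W.comap (mu X)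

theorem mem_dn {W : Submodule K K[X]} {f : K[X]} : f ∈ dn W ↔ f ∈ W ∧ X * f ∈ W := Iff.rfl

theorem sh_dn (W : Submodule K K[X]) : sh (dn W) ≤ W :=
  sh_le (fun _ h => h.1) fun _ h => h.2

theorem finrank_sh (W : Submodule K K[X]) [FiniteDimensional K W] :
    finrank K (sh W) + finrank K (dn W) = 2 * finrank K W := by
  have h1 := Submodule.finrank_sup_add_finrank_inf_eq W (W.map (mu X))
  have h2 : finrank K (W.map (mu X)) = finrank K W :=
    (LinearEquiv.finrank_eq (Submodule.equivMapOfInjective _ (mu_inj X_ne_zero) W)).symm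
  have h3 : W ⊓ W.map (mu X) = (dn W).map (mu X) := by
    ext f
    constructor
    · rintro ⟨hf, g, hg, rfl⟩
      exact ⟨g, ⟨hg, hf⟩, rfl⟩
    · rintro ⟨g, ⟨hg1, hg2⟩, rfl⟩
      exact ⟨hg2, g, hg1, rfl⟩
  have h4 : finrank K ((dn W).map (mu X)) = finrank K (dn W) :=
    (LinearEquiv.finrank_eq (Submodule.equivMapOfInjective _ (mu_inj X_ne_zero) (dn W))).symm
  rw [h3, h4, h2] at h1
  unfold sh
  omega

instance dn_fin (W : Submodule K K[X]) [FiniteDimensional K W] : FiniteDimensional K (dn W) :=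
  Submodule.finiteDimensional_of_le inf_le_left

theorem exists_natDegree_max {W : Submodule K K[X]} [FiniteDimensional K W] (h : W ≠ ⊥) :
    ∃ f ∈ W, f ≠ 0 ∧ ∀ g ∈ W, g.natDegree ≤ f.natDegree := by
  obtain ⟨f0, hf0, hf00⟩ := Submodule.exists_mem_ne_zero_of_ne_bot h
  obtain ⟨s, hs⟩ := (Submodule.fg_iff_finiteDimensional W).2 inferInstance
  have hb : ∀ g ∈ W, g.natDegree ≤ s.sup natDegree := by
    intro g hg
    rw [← hs] at hg
    refine Submodule.span_induction (p := fun g _ => g.natDegree ≤ s.sup natDegree)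
      (fun g hg => Finset.le_sup (f := natDegree) hg) (by simp) (fun a b _ _ ha hb => ?_)
      (fun c a _ ha => ?_) hg
    · exact (natDegree_add_le a b).trans (max_le ha hb)
    · exact (natDegree_smul_le c a).trans ha
  classical
  let S : Set ℕ := {n | ∃ f ∈ W, f ≠ 0 ∧ f.natDegree = n}
  have hne : S.Nonempty := ⟨f0.natDegree, f0, hf0, hf00, rfl⟩
  have hbd : BddAbove S := ⟨s.sup natDegree, by
    rintro _ ⟨g, hg, _, rfl⟩
    exact hb g hg⟩
  obtain ⟨f, hf, hfne, hfd⟩ := Nat.sSup_mem hne hbd
  refine ⟨f, hf, hfne, fun g hg => ?_⟩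
  by_cases hg0 : g = 0
  · rw [hg0, natDegree_zero]
    exact Nat.zero_le _
  · rw [hfd]
    exact le_csSup hbd ⟨g, hg, hg0, rfl⟩

theorem dn_lt {W : Submodule K K[X]} [FiniteDimensional K W] (h : W ≠ ⊥) :
    finrank K (dn W) + 1 ≤ finrank K W := by
  have h1 : dn W < W := by
    refine lt_of_le_of_ne inf_le_left fun heq => ?_
    obtain ⟨f, hf, hf0, hmax⟩ := exists_natDegree_max h
    have h2 : f ∈ dn W := by rw [heq]; exact hf
    have h3 := hmax _ h2.2
    rw [show (mu X) f = X * f from rfl, natDegree_X_mul hf0] at h3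
    omega
  exact Submodule.finrank_lt_finrank_of_lt h1

/-- The dimension in the next degree is larger. -/
theorem sh_ge {W : Submodule K K[X]} [FiniteDimensional K W] (h : W ≠ ⊥) :
    finrank K W + 1 ≤ finrank K (sh W) := by
  have h1 := finrank_sh W
  have h2 := dn_lt h
  omega

theorem finrank_degreeLT (n : ℕ) : finrank K (degreeLT K n) = n := by
  rw [LinearEquiv.finrank_eq (degreeLTEquiv K n), finrank_fin_fun]

instance (n : ℕ) : FiniteDimensional K (degreeLT K n) :=
  (degreeLTEquiv K n).symm.finiteDimensional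

/-- The multiples of `κ` by polynomials of degree less than `n`. -/
noncomputable def ml (κ : K[X]) (n : ℕ) : Submodule K K[X] := (degreeLT K n).map (mu κ)

instance ml_fin (κ : K[X]) (n : ℕ) : FiniteDimensional K (ml κ n) := by
  unfold ml
  infer_instance

theorem finrank_ml {κ : K[X]} (h : κ ≠ 0) (n : ℕ) : finrank K (ml κ n) = n := by
  unfold ml
  rw [(LinearEquiv.finrank_eq (Submodule.equivMapOfInjective _ (mu_inj h) _)).symm,
    finrank_degreeLT]

theorem mem_ml {κ f : K[X]} {n : ℕ} :
    f ∈ ml κ n ↔ ∃ g : K[X], g.degree < (n : WithBot ℕ) ∧ f = κ * g := by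
  unfold ml
  rw [Submodule.mem_map]
  constructor
  · rintro ⟨g, hg, rfl⟩
    exact ⟨g, mem_degreeLT.1 hg, rfl⟩
  · rintro ⟨g, hg, rfl⟩
    exact ⟨g, mem_degreeLT.2 hg, rfl⟩

theorem nd_lt {g : K[X]} {n : ℕ} (hn : 0 < n) (h : g.degree < (n : WithBot ℕ)) :
    g.natDegree < n := by
  by_cases h0 : g = 0
  · rwa [h0, natDegree_zero]
  · exact (natDegree_lt_iff_degree_lt h0).2 h

theorem ml_sh_le (κ : K[X]) (n : ℕ) : ml κ (n + 1) ≤ sh (ml κ n) ∨ n = 0 := by
  rcases Nat.eq_zero_or_pos n with h | h
  · exact Or.inr h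
  left
  intro f hf
  obtain ⟨g, hg, rfl⟩ := mem_ml.1 hf
  -- split off the constant term
  have h1 : g = C (g.coeff 0) + X * g.divX := by
    conv_lhs => rw [← divX_mul_X_add g]
    ring
  rw [h1, mul_add]
  refine Submodule.add_mem _ (le_sh _ (mem_ml.2 ⟨C (g.coeff 0), ?_, rfl⟩)) ?_
  · refine lt_of_le_of_lt degree_C_le ?_
    exact_mod_cast h
  · have h2 : κ * (X * g.divX) = X * (κ * g.divX) := by ring
    rw [h2]
    refine X_mem_sh (mem_ml.2 ⟨g.divX, ?_, rfl⟩)
    by_cases h0 : g.divX = 0
    · rw [h0, degree_zero]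
      exact WithBot.bot_lt_coe _
    · have h3 : g.natDegree < n + 1 := nd_lt (Nat.succ_pos n) hg
      have h4 := natDegree_divX_eq_natDegree_tsub_one (p := g)
      rw [degree_eq_natDegree h0]
      have h5 : g.natDegree ≠ 0 := by
        intro h5
        apply h0
        rw [eq_C_of_natDegree_eq_zero h5, divX_C]
      exact_mod_cast (by omega : g.divX.natDegree < n)

/-- If the dimension in the next degree is larger by one only, the space consists of the multiples
of one form. -/
theorem ec : ∀ (n : ℕ) (W : Submodule K K[X]) [FiniteDimensional K W], finrank K W = n + 1 →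
    finrank K (sh W) ≤ n + 2 → ∃ κ : K[X], κ ≠ 0 ∧ W = ml κ (n + 1) := by
  intro n
  induction n with
  | zero =>
    intro W _ h1 _
    obtain ⟨⟨κ, hκ⟩, hκ0, hsp⟩ := finrank_eq_one_iff'.1 (by simpa using h1)
    have hκ0' : κ ≠ 0 := fun h => hκ0 (Subtype.ext h)
    refine ⟨κ, hκ0', ?_⟩
    symm
    refine Submodule.eq_of_le_of_finrank_eq ?_ (by rw [finrank_ml hκ0', h1])
    intro f hf
    obtain ⟨g, hg, rfl⟩ := mem_ml.1 hf
    have h2 : g = C (g.coeff 0) := by
      have := nd_lt (Nat.succ_pos 0) hg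
      exact eq_C_of_natDegree_eq_zero (by omega)
    rw [h2, mul_comm, ← smul_eq_C_mul]
    exact W.smul_mem _ hκ
  | succ n ih =>
    intro W _ h1 h2
    have h3 := finrank_sh W
    have hW : W ≠ ⊥ := by
      rintro rfl
      rw [finrank_bot] at h1
      omega
    have h4 := dn_lt hW
    have h5 : finrank K (dn W) = n + 1 := by
      have := sh_ge hW
      omega
    have h6 := Submodule.finrank_mono (sh_dn W)
    obtain ⟨κ, hκ, hdn⟩ := ih (dn W) h5 (by omega)
    refine ⟨κ, hκ, ?_⟩
    have h7 : ml κ (n + 1 + 1) ≤ sh (dn W) := by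
      rw [hdn]
      rcases ml_sh_le κ (n + 1) with h | h
      · exact h
      · omega
    symm
    exact Submodule.eq_of_le_of_finrank_eq (h7.trans (sh_dn W)) (by rw [finrank_ml hκ, h1])

theorem ml_mono {κ : K[X]} {m n : ℕ} (h : m ≤ n) : ml κ m ≤ ml κ n :=
  Submodule.map_mono (degreeLT_mono h)

theorem sh_ml_le {κ : K[X]} {n : ℕ} : sh (ml κ n) ≤ ml κ (n + 1) := by
  refine sh_le (ml_mono (Nat.le_succ n)) ?_
  intro f hf
  obtain ⟨g, hg, rfl⟩ := mem_ml.1 hf
  refine mem_ml.2 ⟨X * g, ?_, by ring⟩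
  by_cases h0 : g = 0
  · rw [h0, mul_zero, degree_zero]
    exact WithBot.bot_lt_coe _
  · rw [degree_eq_natDegree h0] at hg
    rw [degree_eq_natDegree (mul_ne_zero X_ne_zero h0), natDegree_X_mul h0]
    have : g.natDegree < n := by exact_mod_cast hg
    exact_mod_cast (by omega : g.natDegree + 1 < n + 1)

end Pool.Agent.K4H28.SP
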