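import Pool.Agent.K4H28.SP.Thm

set_option autoImplicit false
set_option linter.unusedSectionVars false

/-!
# The bounds for the generic dimension
-/

namespace Pool.Agent.K4H28.SP

open MvPolynomial Module Pool.Agent.H248R5 Pool.Agent.H248R6

/-- The coordinate ring of the space of `n` points. -/
abbrev PtR (n : ℕ) := MvPolynomial (Fin n × Fin 2) ℚ

/-- Its fraction field. -/
abbrev PtF (n : ℕ) := FractionRing (PtR n)

/-- The generic points. -/
noncomputable def gpt (n : ℕ) : Fin n → Fin 2 → PtF n := fun i a =>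
  algebraMap (PtR n) (PtF n) (X (i, a))

theorem gpt_ind (n : ℕ) :
    AlgebraicIndependent ℚ (fun ij : Fin n × Fin 2 => gpt n ij.1 ij.2) := by
  rw [algebraicIndependent_iff_injective_aeval]
  have h : ((aeval (fun ij : Fin n × Fin 2 => gpt n ij.1 ij.2) : PtR n →ₐ[ℚ] PtF n) :
      PtR n →+* PtF n) = algebraMap (PtR n) (PtF n) := by
    refine MvPolynomial.ringHom_ext (fun c => ?_) fun ij => ?_
    · exact RingHom.congr_fun (RingHom.ext_rat
        ((RingHom.comp (((aeval (fun ij : Fin n × Fin 2 => gpt n ij.1 ij.2) :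
          PtR n →ₐ[ℚ] PtF n) : PtR n →+* PtF n)) (C : ℚ →+* PtR n)))
        ((algebraMap (PtR n) (PtF n)).comp (C : ℚ →+* PtR n))) c
    · exact aeval_X _ _
  intro p q hpq
  have h2 : algebraMap (PtR n) (PtF n) p = algebraMap (PtR n) (PtF n) q := by
    rw [← h]
    exact hpq
  exact IsFractionRing.injective (PtR n) (PtF n) h2

/-- One more point, of multiplicity zero. -/
def ext0 {s : ℕ} (m : Fin s → ℕ) : Fin (s + 1) → ℕ := Fin.cons 0 m

variable {s : ℕ} {m : Fin s → ℕ} {d : ℕ}

theorem forms_ext0 {K : Type} [Field K] (P : Fin (s + 1) → Fin 2 → K) :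
    forms (ext0 m) P d = forms m (fun i => P i.succ) d := by
  ext f
  rw [mem_forms', mem_forms']
  refine and_congr_right fun _ => ?_
  constructor
  · intro h i t ht
    exact h i.succ t ht
  · intro h i
    refine Fin.cases ?_ (fun j => ?_) i
    · intro t ht
      exact absurd ht (Nat.not_lt_zero _)
    · exact h j

theorem ind_succ : AlgebraicIndependent ℚ
    (fun ij : Fin s × Fin 2 => (fun i : Fin s => gpt (s + 1) i.succ) ij.1 ij.2) := by
  have h1 := (gpt_ind (s + 1)).comp
    (fun ij : Fin s × Fin 2 => ((ij.1.succ, ij.2) : Fin (s + 1) × Fin 2)) ?_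
  · exact h1
  · rintro ⟨a, b⟩ ⟨a', b'⟩ h
    simp only [Prod.mk.injEq, Fin.succ_inj] at h
    exact Prod.ext h.1 h.2

theorem gd_ext0 : finrank (PtF (s + 1)) (forms (ext0 m) (gpt (s + 1)) d) = gd m d := by
  rw [forms_ext0]
  exact finrank_gen (P := fun i : Fin s => gpt (s + 1) i.succ) ind_succ m d

/-- The set of the points of a set, after the additional point. -/
def sucs (T : Finset (Fin s)) : Finset (Fin (s + 1)) := T.map (Fin.succEmb s)

theorem zero_sucs (T : Finset (Fin s)) : (0 : Fin (s + 1)) ∉ sucs T := by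
  unfold sucs
  rw [Finset.mem_map]
  rintro ⟨j, -, h⟩
  exact Fin.succ_ne_zero j h

theorem succ_sucs {T : Finset (Fin s)} {j : Fin s} : j.succ ∈ sucs T ↔ j ∈ T := by
  unfold sucs
  rw [Finset.mem_map]
  constructor
  · rintro ⟨i, hi, h⟩
    rwa [← Fin.succ_injective _ h]
  · intro h
    exact ⟨j, h, rfl⟩

theorem res_sucs (T : Finset (Fin s)) : res (ext0 m) (sucs T) = ext0 (res m T) := by
  funext i
  refine Fin.cases ?_ (fun j => ?_) i
  · rw [res_not (zero_sucs T)]
    rfl
  · change (if j.succ ∈ sucs T then m j else 0) = (if j ∈ T then m j else 0)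
    by_cases h : j ∈ T
    · rw [if_pos h, if_pos (succ_sucs.2 h)]
    · rw [if_neg h, if_neg (fun h' => h (succ_sucs.1 h'))]

theorem sum_sucs (T : Finset (Fin s)) : ∑ i ∈ sucs T, (ext0 m i + 1).choose 2 =
    ∑ i ∈ T, (m i + 1).choose 2 := by
  unfold sucs
  rw [Finset.sum_map]
  rfl

theorem res_univ : res m Finset.univ = m := by
  funext i
  exact if_pos (Finset.mem_univ i)

theorem gd_res (T : Finset (Fin s)) :
    finrank (PtF (s + 1)) (forms (res (ext0 m) (sucs T)) (gpt (s + 1)) d) = gd (res m T) d := by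
  rw [res_sucs, gd_ext0]

theorem sucs_union (S T : Finset (Fin s)) : sucs S ∪ sucs T = sucs (S ∪ T) :=
  (Finset.map_union _ _).symm

/-- The upper bound for the generic dimension. -/
theorem gd_upperT {T : Finset (Fin s)} {A b : ℕ} (hA : ∀ j ∈ T, m j ≤ A)
    (hb : ∀ j, j ∉ T → m j ≤ b) (hba : b ≤ A)
    (base : gd (res m T) d + ∑ i ∈ T, (m i + 1).choose 2 = (d + 2).choose 2 ∨
      gd (res m T) d ≤ (A - 1) * (b - 1)) :
    gd m d + ∑ i, (m i + 1).choose 2 = (d + 2).choose 2 ∨ gd m d ≤ (A - 1) * (b - 1) := by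
  classical
  have h1 := upper_gen (m := ext0 m) (d := d) (q := 0) (T := sucs T) (A := A) (b := b)
    (gpt_ind (s + 1)) (zero_sucs T) (fun j => by
      refine Fin.cases (fun _ => Nat.zero_le _) (fun j hj => ?_) j
      exact hA j (succ_sucs.1 hj)) (fun j => by
      refine Fin.cases (fun _ => Nat.zero_le _) (fun j hj => ?_) j
      exact hb j (fun h => hj (succ_sucs.2 h))) hba (by
        rw [gd_res, sum_sucs]
        exact base) (sucs (Finset.univ \ T)) (by
        rw [Finset.disjoint_left]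
        intro x hx hx'
        unfold sucs at hx hx'
        rw [Finset.mem_map] at hx hx'
        obtain ⟨i, hi, rfl⟩ := hx
        obtain ⟨j, hj, h⟩ := hx'
        have : j = i := Fin.succ_injective _ h
        subst this
        exact (Finset.mem_sdiff.1 hi).2 hj) (zero_sucs _)
  rw [sucs_union, Finset.sdiff_union_of_subset (Finset.subset_univ T), gd_res, sum_sucs,
    res_univ] at h1
  exact h1

/-- No point. -/
theorem gd_none : gd (res m ∅) d = (d + 2).choose 2 := by
  rw [← gd_res]
  exact forms_empty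

/-- One point. -/
theorem gd_one (i₀ : Fin s) : gd (res m {i₀}) d + (m i₀ + 1).choose 2 = (d + 2).choose 2 ∨
    gd (res m {i₀}) d = 0 := by
  have h1 := first (m := ext0 m) (d := d) (q := 0) (a := i₀.succ) (gpt_ind (s + 1))
    (Fin.succ_ne_zero i₀)
  have h2 : ({i₀.succ} : Finset (Fin (s + 1))) = sucs {i₀} := rfl
  rw [h2, gd_res] at h1
  exact h1

/-- The upper bound for the generic dimension. -/
theorem gd_upper {i₀ : Fin s} {b : ℕ} (hb : ∀ j, j ≠ i₀ → m j ≤ b) (hba : b ≤ m i₀) :
    gd m d + ∑ i, (m i + 1).choose 2 = (d + 2).choose 2 ∨ gd m d ≤ (m i₀ - 1) * (b - 1) := by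
  classical
  refine gd_upperT (T := {i₀}) (A := m i₀) (fun j hj => by rw [Finset.mem_singleton.1 hj])
    (fun j hj => hb j (fun h => hj (Finset.mem_singleton.2 h))) hba ?_
  rw [Finset.sum_singleton]
  rcases gd_one (m := m) (d := d) i₀ with h | h
  · exact Or.inl h
  · right
    rw [h]
    exact Nat.zero_le _

/-- The lower bound for the virtual dimension. -/
theorem gd_lower {i₀ : Fin s} {b : ℕ} (hb : ∀ j, j ≠ i₀ → m j ≤ b) (hba : b ≤ m i₀)
    (hne : 1 ≤ gd m d) :
    gd m d + ∑ i, (m i + 1).choose 2 ≤ (d + 2).choose 2 + (m i₀).choose 2 + b * (b - 1) := by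
  classical
  have e1 : insert i₀.succ (sucs (Finset.univ \ {i₀})) = sucs (Finset.univ : Finset (Fin s)) := by
    have h1 : (Finset.univ : Finset (Fin s)) = insert i₀ (Finset.univ \ {i₀}) := by
      rw [← Finset.erase_eq, Finset.insert_erase (Finset.mem_univ i₀)]
    conv_rhs => rw [h1]
    unfold sucs
    rw [Finset.map_insert]
    rfl
  have h1 := lower_gen (m := ext0 m) (d := d) (q := 0) (i₀ := i₀.succ) (b := b)
    (S := sucs (Finset.univ \ {i₀})) (gpt_ind (s + 1)) (Fin.succ_ne_zero i₀)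
    (fun h => (Finset.mem_sdiff.1 (succ_sucs.1 h)).2 (Finset.mem_singleton_self _))
    (zero_sucs _) (fun j => by
      refine Fin.cases (fun _ => Nat.zero_le _) (fun j hj => ?_) j
      exact hb j (fun h => (Finset.mem_sdiff.1 (succ_sucs.1 hj)).2
        (Finset.mem_singleton.2 h))) hba (by
      rw [e1, gd_res, res_univ]
      exact hne)
  rw [e1, gd_res, sum_sucs, res_univ] at h1
  exact h1

/-- The dimension is at least the virtual one. -/
theorem gd_ge : (d + 2).choose 2 ≤ gd m d + ∑ i, (m i + 1).choose 2 := by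
  rcases Nat.eq_zero_or_pos s with h0 | h0
  · subst h0
    have h1 := forms_empty (m := ext0 m) (d := d) (P := gpt (0 + 1))
    have h2 : res (ext0 m) ∅ = ext0 m := by
      funext i
      exact Fin.cases rfl (fun j => j.elim0) i
    rw [h2, gd_ext0] at h1
    omega
  · have hfin : Module.Finite (PtF (s + 1)) ↥(homogeneousSubmodule (Fin 3) (PtF (s + 1)) d) :=
      Module.Finite.iff_fg.2 (homogeneousSubmodule_fg _ _ d)
    let P := fun i : Fin s => gpt (s + 1) i.succ
    have hq : ∀ i, Module.Finite (PtF (s + 1)) (Quo (PtF (s + 1)) (m i)) := fun i => quo_finite (m i)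
    have h1 := LinearMap.finrank_range_add_finrank_ker (ev m P d)
    have h2 : finrank (PtF (s + 1)) ↥(forms m P d) =
        finrank (PtF (s + 1)) ↥(LinearMap.ker (ev m P d)) := by
      rw [forms_eq_map]
      exact LinearEquiv.finrank_eq (Submodule.equivSubtypeMap _ _).symm
    have h3 : finrank (PtF (s + 1)) (∀ i, Quo (PtF (s + 1)) (m i)) = ∑ i, (m i + 1).choose 2 := by
      rw [Module.finrank_pi_fintype]
      exact Finset.sum_congr rfl fun i _ => finrank_quo (m i)
    have h4 := Submodule.finrank_le (LinearMap.range (ev m P d))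
    rw [h3] at h4
    rw [← h2, finrank_homog, finrank_gen (P := P) ind_succ m d] at h1
    omega

/-- The line through two points. -/
theorem line_mem {K : Type} [Field K] [CharZero K] {P : Fin 2 → Fin 2 → K} {w : Fin 2 → ℕ} {e : ℕ}
    {f : MvPolynomial (Fin 3) K} (hf : f ∈ forms w P e) :
    lin (![P 0 0, P 0 1, 1] : Fin 3 → K) ![P 1 0, P 1 1, 1] * f ∈
      forms (fun i => w i + 1) P (e + 1) := by
  set ℓ := lin (![P 0 0, P 0 1, 1] : Fin 3 → K) ![P 1 0, P 1 1, 1] with hℓ
  rw [mem_forms] at hf ⊢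
  refine ⟨?_, fun i => ?_⟩
  · have := (lin_homog (![P 0 0, P 0 1, 1] : Fin 3 → K) ![P 1 0, P 1 1, 1]).mul hf.1
    rwa [add_comm] at this
  · rw [map_mul, pow_succ']
    refine Ideal.mul_mem_mul ?_ (hf.2 i)
    have h1 : constantCoeff (tau (P i) ℓ) = 0 := by
      rw [constCoeff_tau]
      fin_cases i
      · exact eval_lin_self _ _
      · change eval (![P 1 0, P 1 1, 1] : Fin 3 → K) ℓ = 0
        rw [hℓ, eval_lin]
        ring
    have h2 : tau (P i) ℓ ∈ (idealOfVars (Fin 2) K) ^ 1 := by
      rw [mem_pow_idealOfVars_iff']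
      intro x hx
      have hx0 : x = 0 := by
        rw [← Finsupp.degree_eq_zero_iff]
        omega
      subst hx0
      exact h1
    rwa [pow_one] at h2

theorem lin_ne {K : Type} [Field K] [CharZero K] {P : Fin 2 → Fin 2 → K} (h : P 0 ≠ P 1) :
    lin (![P 0 0, P 0 1, 1] : Fin 3 → K) ![P 1 0, P 1 1, 1] ≠ 0 := by
  intro h0
  apply h
  have e0 := congrArg (eval (![1, 0, 0] : Fin 3 → K)) h0
  have e1 := congrArg (eval (![0, 1, 0] : Fin 3 → K)) h0
  rw [eval_lin, map_zero] at e0 e1
  simp at e0 e1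
  funext j
  fin_cases j
  · change P 0 0 = P 1 0
    linear_combination -e1
  · change P 0 1 = P 1 1
    linear_combination e0

/-- The systems with two points which attain the bound. -/
theorem gd_two (α β : ℕ) (h : β ≤ α) :
    gd ![α + 2, β + 2] (α + β + 2) = (α + 1) * (β + 1) := by
  have hc : ∀ k : ℕ, 2 * (k + 1).choose 2 = (k + 1) * k := by
    intro k
    rw [Nat.choose_two_right, Nat.add_sub_cancel]
    refine Nat.mul_div_cancel' ?_
    rw [mul_comm]
    exact (Nat.even_mul_succ_self k).two_dvd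
  have h1 := gd_upper (m := ![α + 2, β + 2]) (d := α + β + 2) (i₀ := 0) (b := β + 2)
    (fun j hj => by
      fin_cases j
      · exact absurd rfl hj
      · exact le_rfl) (by
      change β + 2 ≤ α + 2
      omega)
  have hP := gpt_ind 2
  have h2 : gd ![α + 1, β + 1] (α + β + 1) ≤ gd ![α + 2, β + 2] (α + β + 2) := by
    rw [← finrank_gen hP, ← finrank_gen hP]
    have hne : gpt 2 0 ≠ gpt 2 1 := by
      intro h0
      have h3 := congrFun h0 0
      have h4 := hP.injective (a₁ := ((0, 0) : Fin 2 × Fin 2)) (a₂ := ((1, 0) : Fin 2 × Fin 2)) h3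
      exact absurd (congrArg Prod.fst h4) (by decide)
    have hℓ := lin_ne hne
    let φ : forms ![α + 1, β + 1] (gpt 2) (α + β + 1) →ₗ[PtF 2]
        forms ![α + 2, β + 2] (gpt 2) (α + β + 2) :=
      (LinearMap.mulLeft (PtF 2) (lin (![gpt 2 0 0, gpt 2 0 1, 1] : Fin 3 → PtF 2)
        ![gpt 2 1 0, gpt 2 1 1, 1])).restrict (fun f hf => by
          have h3 := line_mem hf
          have h4 : (fun i => (![α + 1, β + 1] : Fin 2 → ℕ) i + 1) = ![α + 2, β + 2] := by
            funext i
            fin_cases i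
            · rfl
            · rfl
          rw [h4] at h3
          exact h3)
    refine LinearMap.finrank_le_finrank_of_injective (f := φ) ?_
    intro x y hxy
    have h3 := congrArg Subtype.val hxy
    apply Subtype.ext
    exact mul_left_cancel₀ hℓ h3
  have h3 := gd_ge (m := ![α + 1, β + 1]) (d := α + β + 1)
  rw [Fin.sum_univ_two] at h1 h3
  have e1 : (![α + 2, β + 2] : Fin 2 → ℕ) 0 = α + 2 := rfl
  have e2 : (![α + 2, β + 2] : Fin 2 → ℕ) 1 = β + 2 := rfl
  have e3 : (![α + 1, β + 1] : Fin 2 → ℕ) 0 = α + 1 := rfl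
  have e4 : (![α + 1, β + 1] : Fin 2 → ℕ) 1 = β + 1 := rfl
  rw [e1, e2] at h1
  rw [e3, e4] at h3
  have c1 := hc (α + 2)
  have c2 := hc (β + 2)
  have c3 := hc (α + β + 3)
  have c4 := hc (α + 1)
  have c5 := hc (β + 1)
  have c6 := hc (α + β + 2)
  have e5 : α + β + 2 + 2 = α + β + 3 + 1 := rfl
  have e6 : α + β + 1 + 2 = α + β + 2 + 1 := rfl
  rw [e5] at h1
  rw [e6] at h3
  have e7 : (α + 2 - 1) * (β + 2 - 1) = (α + 1) * (β + 1) := rfl
  rw [e7] at h1
  have h4 : (α + 1) * (β + 1) ≤ gd ![α + 2, β + 2] (α + β + 2) := by nlinarith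
  rcases h1 with h1 | h1
  · exfalso
    nlinarith
  · exact le_antisymm h1 h4

end Pool.Agent.K4H28.SP
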