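import Pool.Agent.K4H28.SP.Fin

set_option autoImplicit false
set_option linter.unusedSectionVars false

/-!
# All multiplicities but the four largest ones impose independent conditions
-/

namespace Pool.Agent.K4H28.SP

open MvPolynomial Module Pool.Agent.H248R5 Pool.Agent.H248R6

variable {K : Type} [Field K] [CharZero K] {n : ℕ}
variable {P : Fin n → Fin 2 → K} {d : ℕ} {q : Fin n} {m : Fin n → ℕ}

/-- The points of a set impose independent conditions. -/
def Indep (P : Fin n → Fin 2 → K) (d : ℕ) (m : Fin n → ℕ) (S : Finset (Fin n)) : Prop :=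
  finrank K (forms (res m S) P d) + ∑ i ∈ S, (m i + 1).choose 2 = (d + 2).choose 2

theorem indep_empty : Indep P d m ∅ := by
  unfold Indep
  rw [forms_empty, Finset.sum_empty, Nat.add_zero]

theorem virt_le (hP : AlgebraicIndependent ℚ (fun ij : Fin n × Fin 2 => P ij.1 ij.2))
    (S : Finset (Fin n)) : q ∉ S →
    (d + 2).choose 2 ≤ finrank K (forms (res m S) P d) + ∑ i ∈ S, (m i + 1).choose 2 := by
  classical
  induction S using Finset.induction_on with
  | empty =>
    intro _
    rw [forms_empty, Finset.sum_empty]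
    exact le_rfl
  | insert a S ha ih =>
    intro hq
    have hqS : q ∉ S := fun h => hq (Finset.mem_insert_of_mem h)
    have haq : a ≠ q := fun h => hq (h ▸ Finset.mem_insert_self _ _)
    have h1 := sum_insert_eq (m := m) (d := d) hP hqS ha haq
    have h2 := ih hqS
    rw [Finset.sum_insert ha]
    omega

theorem Indep.of_insert (hP : AlgebraicIndependent ℚ (fun ij : Fin n × Fin 2 => P ij.1 ij.2))
    {S : Finset (Fin n)} {a : Fin n} (ha : a ∉ S) (haq : a ≠ q) (hqS : q ∉ S)
    (h : Indep P d m (insert a S)) : Indep P d m S := by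
  unfold Indep at h ⊢
  have h1 := sum_insert_eq (m := m) (d := d) hP hqS ha haq
  have h2 := virt_le (m := m) (d := d) hP S hqS
  rw [Finset.sum_insert ha] at h
  omega

/-- The points are added one after the other, with increasing multiplicities. -/
structure Chain (m : Fin n → ℕ) (q : Fin n) (U : ℕ → Finset (Fin n)) (a : ℕ → Fin n)
    (s : ℕ) : Prop where
  ins : ∀ t, t < s → U t = insert (a t) (U (t + 1))
  nmem : ∀ t, t < s → a t ∉ U (t + 1)
  ne : ∀ t, t < s → a t ≠ q
  nil : ∀ t, s ≤ t → U t = ∅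
  big : ∀ t, t < s → ∀ i ∈ U (t + 1), m i ≤ m (a t)

variable {U : ℕ → Finset (Fin n)} {a : ℕ → Fin n} {s : ℕ}

theorem Chain.not_mem (hc : Chain m q U a s) : ∀ k t, t + k = s → q ∉ U t := by
  intro k
  induction k with
  | zero =>
    intro t ht
    rw [hc.nil t (by omega)]
    exact Finset.notMem_empty q
  | succ k ih =>
    intro t ht
    rw [hc.ins t (by omega), Finset.mem_insert]
    rintro (h | h)
    · exact hc.ne t (by omega) h.symm
    · exact ih (t + 1) (by omega) h

theorem Chain.not_mem' (hc : Chain m q U a s) (t : ℕ) : q ∉ U t := by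
  rcases Nat.lt_or_ge s t with h | h
  · rw [hc.nil t (by omega)]
    exact Finset.notMem_empty q
  · exact hc.not_mem (s - t) t (by omega)

theorem Chain.next (hP : AlgebraicIndependent ℚ (fun ij : Fin n × Fin 2 => P ij.1 ij.2))
    (hc : Chain m q U a s) {t : ℕ} (h : Indep P d m (U t)) : Indep P d m (U (t + 1)) := by
  rcases Nat.lt_or_ge t s with h1 | h1
  · rw [hc.ins t h1] at h
    exact h.of_insert hP (hc.nmem t h1) (hc.ne t h1) (hc.not_mem' _)
  · rw [hc.nil (t + 1) (by omega)]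
    exact indep_empty

theorem Chain.mono (hc : Chain m q U a s) {t : ℕ} (ht : t + 1 < s) :
    m (a (t + 1)) ≤ m (a t) := by
  refine hc.big t (by omega) _ ?_
  rw [hc.ins (t + 1) ht]
  exact Finset.mem_insert_self _ _

/-- The number `h⁰ + ∑ binom (m i + 1) 2`. -/
noncomputable def tot (P : Fin n → Fin 2 → K) (d : ℕ) (m : Fin n → ℕ) (S : Finset (Fin n)) : ℕ :=
  finrank K (forms (res m S) P d) + ∑ i ∈ S, (m i + 1).choose 2

/-- The possible cases if one more point can be added. -/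
def Stage (P : Fin n → Fin 2 → K) (d : ℕ) (q : Fin n) (m : Fin n → ℕ) (U : ℕ → Finset (Fin n))
    (a : ℕ → Fin n) (s t : ℕ) : Prop :=
  Indep P d m (U t) ∨
  (t < s ∧ Indep P d m (U (t + 1)) ∧
    4 * tot P d m (U t) ≤ 4 * (d + 2).choose 2 + (m (a t) - 1) ^ 2 ∧
    ∀ l, m (a t) ≤ l →
      2 * finrank K (LL P d q (res m (U t)) l) ≤ (m (a t) - 3) * (m (a t) - 2)) ∨
  (t + 1 < s ∧ Indep P d m (U (t + 2)) ∧
    4 * tot P d m (U t) ≤ 4 * (d + 2).choose 2 + ((m (a t) - 1) ^ 2 + (m (a (t + 1)) - 1) ^ 2) ∧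
    2 * finrank K (forms (res m (U t)) P d) ≤ (m (a t) - 3) * (m (a t) - 2)) ∨
  (t + 2 < s ∧ Indep P d m (U (t + 3)) ∧
    4 * tot P d m (U t) ≤ 4 * (d + 2).choose 2 + ((m (a t) - 1) ^ 2 + ((m (a (t + 1)) - 1) ^ 2 +
      (m (a (t + 2)) - 1) ^ 2)) ∧
    4 * finrank K (forms (res m (U t)) P d) + 14 * m (a t) ≤ m (a t) ^ 2 + 13 ∧ 14 ≤ m (a t))

theorem Dim.tail' {i' L' : ℕ → ℕ} {N : ℕ} (hL : Dim i' L' N) {f μ : ℕ} (hf : f < μ)
    (h : ∀ l, f ≤ l → l + 1 ≤ i' l + (2 * f - 1 - l)) {l : ℕ} (hl : μ ≤ l) :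
    2 * L' l ≤ (μ - 3) * (μ - 2) := by
  have h1 := hL.tail h (2 * f - 1 - l) l (by omega) le_rfl
  refine h1.trans ?_
  rcases Nat.lt_or_ge (2 * f - 1 - l) 1 with h2 | h2
  · have h3 : 2 * f - 1 - l = 0 := by omega
    rw [h3]
    simp
  · refine Nat.mul_le_mul ?_ ?_
    · omega
    · omega

theorem two_choose (k : ℕ) : 2 * (k + 1).choose 2 = (k + 1) * k := by
  rw [Nat.choose_two_right, Nat.add_sub_cancel]
  refine Nat.mul_div_cancel' ?_
  rw [mul_comm]
  exact (Nat.even_mul_succ_self k).two_dvd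

theorem arith_two {μ μ' h h' T c : ℕ} (h1 : μ' ≤ μ) (h2 : 1 ≤ h)
    (h3 : h' + T = h + c) (h4 : 2 * c = (μ + 1) * μ) (h5 : 4 * T ≤ (μ - 1) ^ 2)
    (h6 : 2 * h' ≤ (μ' - 3) * (μ' - 2)) : 4 * h + 14 * μ ≤ μ ^ 2 + 13 ∧ 14 ≤ μ := by
  have h7 : 2 * h' ≤ (μ - 3) * (μ - 2) := h6.trans (Nat.mul_le_mul (by omega) (by omega))
  rcases Nat.lt_or_ge μ 3 with h8 | h8
  · exfalso
    have h9 : μ - 3 = 0 := by omega
    rw [h9, zero_mul] at h7
    interval_cases μ
    · simp at h5 h4
      omega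
    · simp at h5 h4
      omega
    · simp at h5 h4
      omega
  · obtain ⟨ν, rfl⟩ : ∃ ν, μ = ν + 3 := ⟨μ - 3, by omega⟩
    have e1 : ν + 3 - 3 = ν := by omega
    have e2 : ν + 3 - 2 = ν + 1 := by omega
    have e3 : ν + 3 - 1 = ν + 2 := by omega
    rw [e1, e2] at h7
    rw [e3] at h5
    have h9 : 4 * h + 14 * (ν + 3) ≤ (ν + 3) ^ 2 + 13 := by nlinarith
    refine ⟨h9, ?_⟩
    by_contra hcon
    have h10 : ν ≤ 10 := by omega
    interval_cases ν <;> omega

theorem arith_three {μ μ' h h' T c : ℕ} (h1 : μ' ≤ μ)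
    (h3 : h' + T = h + c) (h4 : 2 * c = (μ + 1) * μ) (h5 : 4 * T ≤ (μ - 1) ^ 2)
    (h6 : 4 * h' + 14 * μ' ≤ μ' ^ 2 + 13) (h7 : 14 ≤ μ') : False := by
  obtain ⟨ν, rfl⟩ : ∃ ν, μ = ν + 1 := ⟨μ - 1, by omega⟩
  rw [Nat.add_sub_cancel] at h5
  have h8 : μ' ^ 2 ≤ (ν + 1) ^ 2 := Nat.pow_le_pow_left h1 2
  nlinarith

/-- **The chain of systems.** -/
theorem chain_main (hP : AlgebraicIndependent ℚ (fun ij : Fin n × Fin 2 => P ij.1 ij.2))
    (hc : Chain m q U a s) : ∀ k t, t + k = s → ∀ M, (t < s → m (a t) ≤ M) →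
      1 ≤ finrank K (LL P d q (res m (U t)) M) → Stage P d q m U a s t := by
  classical
  intro k
  induction k with
  | zero =>
    intro t ht M _ _
    left
    rw [hc.nil t (by omega)]
    exact indep_empty
  | succ k ih =>
    intro t ht M hM hL
    have hts : t < s := by omega
    have e0 := hc.ins t hts
    have ha := hc.nmem t hts
    have haq := hc.ne t hts
    have hbig := hc.big t hts
    have hq : q ∉ U t := hc.not_mem' t
    have hqS : q ∉ U (t + 1) := hc.not_mem' (t + 1)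
    have e3 := sum_insert_eq (m := m) (d := d) hP hqS ha haq
    have e4 := LL_insert (m := m) (d := d) hP hqS ha haq
    have hNum : Num (fun k => finrank K (II P d q (res m (U (t + 1))) k))
        (fun k => finrank K (II P d q (res m (U t)) k)) := by
      rw [e0, res_insert ha]
      exact num_inst hP haq (res_not ha) (above_update (res_not ha) (res_le hbig))
    have hsum : ∑ i ∈ U t, (m i + 1).choose 2 =
        (m (a t) + 1).choose 2 + ∑ i ∈ U (t + 1), (m i + 1).choose 2 := by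
      rw [e0, Finset.sum_insert ha]
    rw [← e0] at e3 e4
    have hc2 := two_choose (m (a t))
    have hh : 1 ≤ finrank K (forms (res m (U t)) P d) := by
      refine hL.trans (Submodule.finrank_mono ?_)
      unfold LL
      refine forms_le fun i => ?_
      by_cases hi : i = q
      · subst hi
        rw [res_not hq]
        exact Nat.zero_le _
      · rw [Function.update_of_ne hi]
    have h1 : 1 ≤ finrank K (LL P d q (res m (U (t + 1))) (m (a t))) := by rwa [e4]
    have h2 := ih (t + 1) (by omega) (m (a t)) (fun h => hc.mono h) h1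
    set T := ∑ j ∈ Finset.range (m (a t)), finrank K (II P d q (res m (U (t + 1))) j) with hT
    rcases Nat.eq_zero_or_pos (m (a t)) with h0 | h0
    · -- the multiplicity is zero
      left
      have hT0 : T = 0 := by rw [hT, h0, Finset.range_zero, Finset.sum_empty]
      have c1 : (m (a t) + 1).choose 2 = 0 := by rw [h0]; rfl
      rw [hT0, c1] at e3
      have h3 : Indep P d m (U (t + 1)) := by
        rcases h2 with h2 | ⟨h3, -, -, h2⟩ | ⟨h3, -, -, h2⟩ | ⟨h3, -, -, -, h2⟩
        · exact h2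
        · have h4 := hc.mono h3
          have h5 := h2 (m (a t)) h4
          have h6 : m (a (t + 1)) = 0 := by omega
          have h7 : (0 - 3) * (0 - 2) = 0 := rfl
          rw [h6, h7] at h5
          omega
        · have h4 := hc.mono (t := t) (by omega)
          have h6 : m (a (t + 1)) = 0 := by omega
          have h7 : (0 - 3) * (0 - 2) = 0 := rfl
          rw [h6, h7] at h2
          omega
        · have h4 := hc.mono (t := t) (by omega)
          omega
      unfold Indep at h3 ⊢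
      rw [hsum, c1]
      omega
    have hMl : finrank K (II P d q (res m (U t)) (M - 1)) ≤ M - 1 :=
      notfull hP hL (by have := hM hts; omega)
    have hT4 : 4 * T ≤ (m (a t) - 1) ^ 2 := hNum.sum_le (l := M - 1) hMl (by
      have := hM hts
      omega)
    rcases h2 with h2 | ⟨h3, h5, h6, h2⟩ | ⟨h3, h5, h6, h2⟩ | ⟨h3, h5, h6, h7, h2⟩
    · by_cases h6 : T = 0
      · left
        unfold Indep at h2 ⊢
        omega
      · right
        left
        refine ⟨hts, h2, ?_, fun l hl => ?_⟩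
        · unfold tot
          unfold Indep at h2
          omega
        · obtain ⟨f, hf1, hf2⟩ : ∃ f, f < m (a t) ∧
              1 ≤ finrank K (II P d q (res m (U (t + 1))) f) := by
            by_contra hcon
            push Not at hcon
            apply h6
            rw [hT]
            refine Finset.sum_eq_zero fun j hj => ?_
            have := hcon j (Finset.mem_range.1 hj)
            omega
          exact Dim.tail' dim_inst hf1 (fun l hl => hNum.lemB hf2 hl) hl
    · right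
      right
      left
      have h4 := hc.mono h3
      refine ⟨by omega, h5, ?_, ?_⟩
      · unfold tot at h6 ⊢
        omega
      · rw [← e4]
        exact (h2 (m (a t)) h4).trans (Nat.mul_le_mul (by omega) (by omega))
    · right
      right
      right
      have h4 := hc.mono (t := t) (by omega)
      have h7 := arith_two h4 hh e3 hc2 hT4 h2
      have h8 : 4 * tot P d m (U (t + 1)) ≤ 4 * (d + 2).choose 2 +
        ((m (a (t + 1)) - 1) ^ 2 + (m (a (t + 2)) - 1) ^ 2) := h6
      refine ⟨by omega, h5, ?_, h7⟩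
      unfold tot at h8 ⊢
      omega
    · exact (arith_three (hc.mono (t := t) (by omega)) e3 hc2 hT4 h7 h2).elim

/-- **All multiplicities but the four largest ones.** -/
theorem chain_four (hP : AlgebraicIndependent ℚ (fun ij : Fin n × Fin 2 => P ij.1 ij.2))
    (hc : Chain m q U a s) (hs : 0 < s) (hne : 1 ≤ finrank K (forms (res m (U 0)) P d)) :
    Indep P d m (U 4) ∧
      ((4 * tot P d m (U 0) ≤ 4 * (d + 2).choose 2 + 4 * (m (a 0)).choose 2 ∨
      (1 < s ∧ 4 * tot P d m (U 0) ≤ 4 * (d + 2).choose 2 + 4 * (m (a 0)).choose 2 +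
        (m (a 1) - 1) ^ 2) ∨
      (2 < s ∧ 4 * tot P d m (U 0) ≤ 4 * (d + 2).choose 2 + 4 * (m (a 0)).choose 2 +
        ((m (a 1) - 1) ^ 2 + (m (a 2) - 1) ^ 2)) ∨
      (3 < s ∧ 4 * tot P d m (U 0) ≤ 4 * (d + 2).choose 2 + 4 * (m (a 0)).choose 2 +
        ((m (a 1) - 1) ^ 2 + ((m (a 2) - 1) ^ 2 + (m (a 3) - 1) ^ 2))))) := by
  classical
  have e0 := hc.ins 0 hs
  have ha := hc.nmem 0 hs
  have haq := hc.ne 0 hs
  have hqS : q ∉ U (0 + 1) := hc.not_mem' (0 + 1)
  have e3 := sum_insert_eq (m := m) (d := d) hP hqS ha haq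
  have e4 := LL_insert (m := m) (d := d) hP hqS ha haq
  have hsum : ∑ i ∈ U 0, (m i + 1).choose 2 =
      (m (a 0) + 1).choose 2 + ∑ i ∈ U (0 + 1), (m i + 1).choose 2 := by
    rw [e0, Finset.sum_insert ha]
  rw [← e0] at e3 e4
  have h1 : 1 ≤ finrank K (LL P d q (res m (U (0 + 1))) (m (a 0))) := by rwa [e4]
  have h2 := chain_main (d := d) hP hc (s - 1) (0 + 1) (by omega) (m (a 0))
    (fun h => hc.mono h) h1
  have h3 : ∑ j ∈ Finset.range (m (a 0)), finrank K (II P d q (res m (U (0 + 1))) j) ≤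
      (m (a 0)).choose 2 := by
    refine (Finset.sum_le_sum fun j hj => notfull hP h1 (Finset.mem_range.1 hj)).trans ?_
    rw [Finset.sum_range_id, Nat.choose_two_right]
  have h4 : tot P d m (U 0) ≤ tot P d m (U (0 + 1)) + (m (a 0)).choose 2 := by
    unfold tot
    omega
  rcases h2 with h2 | ⟨h6, h2, h7, -⟩ | ⟨h6, h2, h7, -⟩ | ⟨h6, h2, h7, -⟩
  · refine ⟨hc.next hP (hc.next hP (hc.next hP h2)), Or.inl ?_⟩
    have h5 : tot P d m (U (0 + 1)) = (d + 2).choose 2 := h2
    omega
  · refine ⟨hc.next hP (hc.next hP h2), Or.inr (Or.inl ⟨h6, ?_⟩)⟩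
    have h8 : 4 * tot P d m (U (0 + 1)) ≤ 4 * (d + 2).choose 2 + (m (a 1) - 1) ^ 2 := h7
    omega
  · refine ⟨hc.next hP h2, Or.inr (Or.inr (Or.inl ⟨h6, ?_⟩))⟩
    have h8 : 4 * tot P d m (U (0 + 1)) ≤ 4 * (d + 2).choose 2 +
      ((m (a 1) - 1) ^ 2 + (m (a 2) - 1) ^ 2) := h7
    omega
  · refine ⟨h2, Or.inr (Or.inr (Or.inr ⟨h6, ?_⟩))⟩
    have h8 : 4 * tot P d m (U (0 + 1)) ≤ 4 * (d + 2).choose 2 +
      ((m (a 1) - 1) ^ 2 + ((m (a 2) - 1) ^ 2 + (m (a 3) - 1) ^ 2)) := h7
    omega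

end Pool.Agent.K4H28.SP
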