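import Pool.Agent.K4H28.SP.Four

set_option autoImplicit false
set_option linter.unusedSectionVars false

/-!
# The four largest multiplicities, for the generic dimension
-/

namespace Pool.Agent.K4H28.SP

open MvPolynomial Module Pool.Agent.H248R5 Pool.Agent.H248R6

/-- Only the points of positive multiplicity matter. -/
theorem gd_emb {a b d : ℕ} {e : Fin a → Fin b} (he : Function.Injective e) {w : Fin b → ℕ}
    (hw : ∀ j, (∀ i, e i ≠ j) → w j = 0) : gd w d = gd (fun i => w (e i)) d := by
  classical
  have h1 : forms w (gpt b) d = forms (fun i => w (e i)) (fun i => gpt b (e i)) d := by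
    ext f
    rw [mem_forms', mem_forms']
    refine and_congr_right fun _ => ?_
    constructor
    · intro h i t ht
      exact h (e i) t ht
    · intro h j
      by_cases hj : ∃ i, e i = j
      · obtain ⟨i, rfl⟩ := hj
        exact h i
      · intro t ht
        rw [hw j (fun i hi => hj ⟨i, hi⟩)] at ht
        exact absurd ht (Nat.not_lt_zero _)
  rw [← finrank_gen (gpt_ind b) w d, h1]
  refine finrank_gen (P := fun i => gpt b (e i)) ?_ _ d
  refine (gpt_ind b).comp (fun ij : Fin a × Fin 2 => ((e ij.1, ij.2) : Fin b × Fin 2)) ?_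
  rintro ⟨x, y⟩ ⟨x', y'⟩ h
  simp only [Prod.mk.injEq] at h
  exact Prod.ext (he h.1) h.2

/-- The points with index at least `t`. -/
def UU (s t : ℕ) : Finset (Fin s) := Finset.univ.filter fun i => t ≤ (i : ℕ)

theorem mem_UU {s t : ℕ} {i : Fin s} : i ∈ UU s t ↔ t ≤ (i : ℕ) := by
  unfold UU
  rw [Finset.mem_filter]
  exact and_iff_right (Finset.mem_univ i)

theorem UU_ins {s t : ℕ} (h : t < s) : UU s t = insert ⟨t, h⟩ (UU s (t + 1)) := by
  ext i
  rw [Finset.mem_insert, mem_UU, mem_UU, Fin.ext_iff]
  change t ≤ (i : ℕ) ↔ (i : ℕ) = t ∨ t + 1 ≤ (i : ℕ)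
  omega

theorem UU_nil {s t : ℕ} (h : s ≤ t) : UU s t = ∅ := by
  ext i
  rw [mem_UU]
  constructor
  · intro h1
    have := i.isLt
    omega
  · intro h1
    exact absurd h1 (Finset.notMem_empty _)

/-- The point with index `t`, after the additional point. -/
def aa (s t : ℕ) : Fin (s + 1) := if h : t < s then (⟨t, h⟩ : Fin s).succ else 0

theorem aa_of_lt {s t : ℕ} (h : t < s) : aa s t = (⟨t, h⟩ : Fin s).succ := dif_pos h

theorem ext0_aa {s t : ℕ} {m : ℕ → ℕ} (h : t < s) : ext0 (fun i : Fin s => m i) (aa s t) = m t := by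
  rw [aa_of_lt h]
  rfl

theorem chain_aa {s : ℕ} {m : ℕ → ℕ} (hm : Antitone m) :
    Chain (ext0 (fun i : Fin s => m i)) 0 (fun t => sucs (UU s t)) (aa s) s where
  ins := fun t ht => by
    rw [UU_ins ht, aa_of_lt ht]
    unfold sucs
    rw [Finset.map_insert]
    rfl
  nmem := fun t ht => by
    rw [aa_of_lt ht, succ_sucs, mem_UU]
    change ¬ (t + 1 ≤ t)
    omega
  ne := fun t ht => by
    rw [aa_of_lt ht]
    exact Fin.succ_ne_zero _
  nil := fun t ht => by
    rw [UU_nil ht]
    rfl
  big := fun t ht i hi => by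
    rw [ext0_aa ht]
    revert hi
    refine Fin.cases (fun h => absurd h (zero_sucs _)) (fun j hj => ?_) i
    rw [succ_sucs, mem_UU] at hj
    exact hm (show t ≤ (j : ℕ) by omega)

theorem indep_UU {s d t : ℕ} {m : ℕ → ℕ}
    (h : Indep (gpt (s + 1)) d (ext0 (fun i : Fin s => m i)) (sucs (UU s t))) :
    gd (fun i : Fin (s - t) => m (i + t)) d + ∑ i : Fin (s - t), (m (i + t) + 1).choose 2 =
      (d + 2).choose 2 := by
  classical
  unfold Indep at h
  rw [gd_res, sum_sucs] at h
  have he : Function.Injective (fun i : Fin (s - t) => (⟨i + t, by omega⟩ : Fin s)) := by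
    intro x y hxy
    have h1 := congrArg Fin.val hxy
    simp only at h1
    exact Fin.ext (by omega)
  have h1 : UU s t = Finset.univ.map ⟨fun i : Fin (s - t) => (⟨i + t, by omega⟩ : Fin s), he⟩ := by
    ext i
    rw [mem_UU, Finset.mem_map]
    constructor
    · intro hi
      refine ⟨⟨i - t, by omega⟩, Finset.mem_univ _, Fin.ext ?_⟩
      change (i : ℕ) - t + t = i
      omega
    · rintro ⟨x, -, hx⟩
      have h2 : (x : ℕ) + t = i := congrArg Fin.val hx
      omega
  rw [gd_emb he (w := res (fun i : Fin s => m i) (UU s t)) (fun j hj => by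
    refine res_not fun h2 => ?_
    rw [mem_UU] at h2
    exact hj ⟨j - t, by omega⟩ (Fin.ext (by
      change (j : ℕ) - t + t = j
      omega)))] at h
  have h2 : (fun i : Fin (s - t) => res (fun i : Fin s => m i) (UU s t)
      (⟨i + t, by omega⟩ : Fin s)) = fun i : Fin (s - t) => m (i + t) := by
    funext i
    unfold res
    rw [if_pos]
    rw [mem_UU]
    change t ≤ (i : ℕ) + t
    omega
  rw [h2, h1, Finset.sum_map] at h
  exact h

/-- **All but the four largest multiplicities are independent, and the superabundance is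
bounded.** -/
theorem gd_four {s d : ℕ} {m : ℕ → ℕ} (hm : Antitone m)
    (hne : 1 ≤ gd (fun i : Fin s => m i) d) :
    (∀ t, 4 ≤ t → gd (fun i : Fin (s - t) => m (i + t)) d +
      ∑ i : Fin (s - t), (m (i + t) + 1).choose 2 = (d + 2).choose 2) ∧
    4 * (gd (fun i : Fin s => m i) d + ∑ i : Fin s, (m i + 1).choose 2) ≤
      4 * (d + 2).choose 2 + 4 * (m 0).choose 2 +
        ((m 1 - 1) ^ 2 + ((m 2 - 1) ^ 2 + (m 3 - 1) ^ 2)) := by
  classical
  have hP := gpt_ind (s + 1)
  have hc := chain_aa (s := s) hm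
  rcases Nat.eq_zero_or_pos s with h0 | h0
  · subst h0
    have h1 : Indep (gpt (0 + 1)) d (ext0 (fun i : Fin 0 => m i)) (sucs (UU 0 0)) := by
      rw [UU_nil le_rfl]
      exact indep_empty
    constructor
    · intro t _
      have h2 : Indep (gpt (0 + 1)) d (ext0 (fun i : Fin 0 => m i)) (sucs (UU 0 t)) := by
        rw [UU_nil (Nat.zero_le _)]
        exact indep_empty
      exact indep_UU h2
    · have h2 := indep_UU h1
      have h3 : gd (fun i : Fin 0 => m i) d + ∑ i : Fin 0, (m i + 1).choose 2 =
        (d + 2).choose 2 := h2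
      rw [h3]
      omega
  · have e1 : UU s 0 = Finset.univ := by
      ext i
      rw [mem_UU]
      exact ⟨fun _ => Finset.mem_univ _, fun _ => Nat.zero_le _⟩
    have h1 : finrank (PtF (s + 1)) (forms (res (ext0 (fun i : Fin s => m i))
        ((fun t => sucs (UU s t)) 0)) (gpt (s + 1)) d) = gd (fun i : Fin s => m i) d := by
      change finrank (PtF (s + 1)) (forms (res (ext0 (fun i : Fin s => m i)) (sucs (UU s 0)))
        (gpt (s + 1)) d) = _
      rw [gd_res, e1, res_univ]
    have h2 : tot (gpt (s + 1)) d (ext0 (fun i : Fin s => m i)) ((fun t => sucs (UU s t)) 0) =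
        gd (fun i : Fin s => m i) d + ∑ i : Fin s, (m i + 1).choose 2 := by
      unfold tot
      rw [h1]
      congr 1
      change ∑ i ∈ sucs (UU s 0), (ext0 (fun i : Fin s => m i) i + 1).choose 2 = _
      rw [sum_sucs, e1]
    have h3 := chain_four (d := d) hP hc h0 (by rw [h1]; exact hne)
    rw [h2, ext0_aa h0] at h3
    obtain ⟨h4, h5⟩ := h3
    constructor
    · intro t ht
      refine indep_UU ?_
      obtain ⟨r, rfl⟩ := Nat.exists_eq_add_of_le ht
      have h6 : ∀ r, Indep (gpt (s + 1)) d (ext0 (fun i : Fin s => m i))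
          ((fun t => sucs (UU s t)) (4 + r)) := by
        intro r
        induction r with
        | zero => exact h4
        | succ r ih => exact hc.next hP ih
      exact h6 r
    · rcases h5 with h5 | ⟨a1, h5⟩ | ⟨a1, h5⟩ | ⟨a1, h5⟩
      · omega
      · rw [ext0_aa a1] at h5
        omega
      · rw [ext0_aa a1, ext0_aa (show 1 < s by omega)] at h5
        omega
      · rw [ext0_aa a1, ext0_aa (show 1 < s by omega), ext0_aa (show 2 < s by omega)] at h5
        omega

end Pool.Agent.K4H28.SP
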