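import Pool.Agent.K4H28.SP.EC

set_option autoImplicit false

/-!
# The multiples of forms without a common factor
-/

namespace Pool.Agent.K4H28.SP

open Polynomial Module

variable {K : Type} [Field K]

/-- The multiples of the polynomials `h j` by polynomials of degree at most `i`. -/
noncomputable def NN {ι : Type} (h : ι → K[X]) (i : ℕ) : Submodule K K[X] :=
  ⨆ j, ml (h j) (i + 1)

theorem ml_le_lt {κ : K[X]} {v n : ℕ} (hκ : κ.natDegree ≤ v) : ml κ n ≤ degreeLT K (v + n) := by
  intro f hf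
  obtain ⟨g, hg, rfl⟩ := mem_ml.1 hf
  rw [mem_degreeLT]
  by_cases h0 : κ * g = 0
  · rw [h0, degree_zero]
    exact WithBot.bot_lt_coe _
  · have hg0 : g ≠ 0 := right_ne_zero_of_mul h0
    have hκ0 : κ ≠ 0 := left_ne_zero_of_mul h0
    have h1 : g.natDegree < n := by
      rw [degree_eq_natDegree hg0] at hg
      exact_mod_cast hg
    rw [degree_eq_natDegree h0, natDegree_mul hκ0 hg0]
    exact_mod_cast (by omega : κ.natDegree + g.natDegree < v + n)

theorem NN_le {ι : Type} {h : ι → K[X]} {v : ℕ} (hv : ∀ j, (h j).natDegree ≤ v) (i : ℕ) :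
    NN h i ≤ degreeLT K (v + (i + 1)) :=
  iSup_le fun j => ml_le_lt (hv j)

theorem mul_mem_ml {κ g : K[X]} {n : ℕ} (hg : g.degree < (n : WithBot ℕ)) : κ * g ∈ ml κ n :=
  mem_ml.2 ⟨g, hg, rfl⟩

theorem self_mem_ml (κ : K[X]) (n : ℕ) : κ ∈ ml κ (n + 1) := by
  refine mem_ml.2 ⟨1, ?_, (mul_one κ).symm⟩
  rw [degree_one]
  exact_mod_cast Nat.succ_pos n

theorem exists_irr {κ : K[X]} (h : κ.natDegree ≠ 0) : ∃ ℓ : K[X], Irreducible ℓ ∧ ℓ ∣ κ := by
  have h0 : κ ≠ 0 := fun h0 => h (by rw [h0, natDegree_zero])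
  refine WfDvdMonoid.exists_irreducible_factor (fun hu => h ?_) h0
  exact natDegree_eq_zero_of_isUnit hu

/-- The dimension of the space of the multiples of forms without a common factor. -/
theorem grow {ι : Type} [Nonempty ι] {h : ι → K[X]} {v : ℕ} (hv0 : 1 ≤ v)
    (hv : ∀ j, (h j).natDegree = v) (hirr : ¬ ∃ ℓ : K[X], Irreducible ℓ ∧ ∀ j, ℓ ∣ h j) :
    ∀ i : ℕ, v + i + 1 ≤ finrank K (NN h i) + (v - 1 - i) := by
  have hh0 : ∀ j, h j ≠ 0 := fun j h0 => by
    have := hv j
    rw [h0, natDegree_zero] at this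
    omega
  have hfin : ∀ i, FiniteDimensional K (NN h i) := fun i =>
    Submodule.finiteDimensional_of_le (NN_le (fun j => (hv j).le) i)
  have hself : ∀ i j, h j ∈ NN h i := fun i j =>
    (le_iSup (fun j => ml (h j) (i + 1)) j) (self_mem_ml (h j) i)
  have hne : ∀ i, NN h i ≠ ⊥ := by
    intro i hbot
    obtain ⟨j⟩ := ‹Nonempty ι›
    have h1 := hself i j
    rw [hbot, Submodule.mem_bot] at h1
    exact hh0 j h1
  have hstep : ∀ i, sh (NN h i) ≤ NN h (i + 1) := by
    intro i
    refine sh_le ?_ ?_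
    · exact iSup_mono fun j => ml_mono (Nat.le_succ _)
    · intro f hf
      have h1 : (NN h i) ≤ (NN h (i + 1)).comap (mu X) := by
        refine iSup_le fun j => ?_
        intro g hg
        have h2 : X * g ∈ ml (h j) (i + 1 + 1) := sh_ml_le (X_mem_sh hg)
        exact (le_iSup (fun j => ml (h j) (i + 1 + 1)) j) h2
      exact h1 hf
  intro i
  induction i with
  | zero =>
    by_contra hcon
    obtain ⟨j0⟩ := ‹Nonempty ι›
    have h1 : finrank K (NN h 0) ≤ 1 := by omega
    have h2 : ∀ j, h j0 ∣ h j := by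
      intro j
      have h3 := finrank_le_one_iff.1 h1
      obtain ⟨⟨u, hu⟩, hu2⟩ := h3
      obtain ⟨c, hc⟩ := hu2 ⟨h j0, hself 0 j0⟩
      obtain ⟨c', hc'⟩ := hu2 ⟨h j, hself 0 j⟩
      have e1 : c • u = h j0 := congrArg Subtype.val hc
      have e2 : c' • u = h j := congrArg Subtype.val hc'
      have hc0 : c ≠ 0 := by
        rintro rfl
        rw [zero_smul] at e1
        exact hh0 j0 e1.symm
      refine ⟨C (c' * c⁻¹), ?_⟩
      rw [← e1, ← e2, mul_comm, ← smul_eq_C_mul, smul_smul, mul_assoc, inv_mul_cancel₀ hc0,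
        mul_one]
    obtain ⟨ℓ, hℓ, hℓ2⟩ := exists_irr (κ := h j0) (by rw [hv]; omega)
    exact hirr ⟨ℓ, hℓ, fun j => hℓ2.trans (h2 j)⟩
  | succ i ih =>
    have h1 := Submodule.finrank_mono (hstep i)
    have h2 := sh_ge (hne i)
    rcases Nat.lt_or_ge (finrank K (NN h i)) (v + i + 1) with h3 | h3
    · by_contra hcon
      have h4 : finrank K (sh (NN h i)) ≤ finrank K (NN h i) + 1 := by omega
      obtain ⟨r, hr⟩ : ∃ r, finrank K (NN h i) = r + 1 := by
        refine ⟨finrank K (NN h i) - 1, ?_⟩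
        have : 0 < finrank K (NN h i) := by
          rw [finrank_pos_iff]
          exact Submodule.nontrivial_iff_ne_bot.2 (hne i)
        omega
      obtain ⟨κ, hκ0, hκ⟩ := ec r (NN h i) hr (by omega)
      have h5 : ∀ j, κ ∣ h j := by
        intro j
        have := hself i j
        rw [hκ] at this
        obtain ⟨g, -, hg⟩ := mem_ml.1 this
        exact ⟨g, hg⟩
      by_cases h6 : κ.natDegree = 0
      · obtain ⟨j0⟩ := ‹Nonempty ι›
        have h7 : h j0 * X ^ i ∈ NN h i := by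
          refine (le_iSup (fun j => ml (h j) (i + 1)) j0) (mul_mem_ml ?_)
          rw [degree_X_pow]
          exact_mod_cast Nat.lt_succ_self i
        rw [hκ] at h7
        have h8 := ml_le_lt (v := 0) h6.le h7
        rw [mem_degreeLT, zero_add] at h8
        have h9 : (h j0 * X ^ i).natDegree = v + i := by
          rw [natDegree_mul (hh0 j0) (pow_ne_zero _ X_ne_zero), natDegree_X_pow, hv]
        have h10 := nd_lt (Nat.succ_pos r) h8
        omega
      · obtain ⟨ℓ, hℓ, hℓ2⟩ := exists_irr h6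
        exact hirr ⟨ℓ, hℓ, fun j => hℓ2.trans (h5 j)⟩
    · omega

end Pool.Agent.K4H28.SP
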