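import Pool.Agent.K4H28.SP.Spread
import Pool.Agent.K4H28.SP.Grow

set_option autoImplicit false
set_option linter.unusedSectionVars false

/-!
# The comparison with a system with one more point
-/

namespace Pool.Agent.K4H28.SP

open MvPolynomial Module Pool.Agent.H248R5 Pool.Agent.H248R6
open Polynomial (degreeLT mem_degreeLT degreeLTEquiv)

variable {K : Type} [Field K] [CharZero K] {n : ℕ}
variable {P : Fin n → Fin 2 → K} {d : ℕ} {q o : Fin n} {w w' : Fin n → ℕ} {k : ℕ}

/-- The multiplicity at the point with index `j` moves to the point with index `o`. -/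
def sw (w : Fin n → ℕ) (o j : Fin n) : Fin n → ℕ := fun i => w (Equiv.swap o j i)

theorem sw_right (w : Fin n → ℕ) (o j : Fin n) : sw w o j j = w o := by
  unfold sw
  rw [Equiv.swap_apply_right]

theorem finrank_LL_sw (hP : AlgebraicIndependent ℚ (fun ij : Fin n × Fin 2 => P ij.1 ij.2))
    (ho : o ≠ q) {j : Fin n} (hj : j ≠ q) (k : ℕ) :
    finrank K (LL P d q (sw w o j) k) = finrank K (LL P d q w k) := by
  unfold LL
  rw [← finrank_perm hP (Function.update w q k) d (Equiv.swap o j)]
  have h1 : Function.update (sw w o j) q k =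
      fun i => Function.update w q k (Equiv.swap o j i) := by
    funext i
    by_cases hi : i = q
    · subst hi
      rw [Function.update_self, Equiv.swap_apply_of_ne_of_ne ho.symm hj.symm,
        Function.update_self]
    · rw [Function.update_of_ne hi, Function.update_of_ne]
      · rfl
      · intro h
        have h2 := congrArg (Equiv.swap o j) h
        rw [Equiv.swap_apply_self, Equiv.swap_apply_of_ne_of_ne ho.symm hj.symm] at h2
        exact hi h2
  rw [h1]

theorem finrank_II_sw (hP : AlgebraicIndependent ℚ (fun ij : Fin n × Fin 2 => P ij.1 ij.2))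
    (ho : o ≠ q) {j : Fin n} (hj : j ≠ q) (k : ℕ) :
    finrank K (II P d q (sw w o j) k) = finrank K (II P d q w k) := by
  have h1 := finrank_II (P := P) (d := d) (q := q) (w := w) (k := k)
  have h2 := finrank_II (P := P) (d := d) (q := q) (w := sw w o j) (k := k)
  rw [finrank_LL_sw hP ho hj, finrank_LL_sw hP ho hj] at h2
  omega

theorem dP_der_sum {ι : Type} (s : Finset ι) (c : ι → K) (D : ι → Derivation ℚ K K)
    (φ : Polynomial K) : dP (∑ i ∈ s, c i • D i) φ = ∑ i ∈ s, Polynomial.C (c i) * dP (D i) φ := by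
  ext m
  rw [coeff_dP, der_sum, Polynomial.finsetSum_coeff]
  refine Finset.sum_congr rfl fun i _ => ?_
  rw [Polynomial.coeff_C_mul, coeff_dP]

/-- The partial derivatives with respect to the coordinates of the points, and the two
combinations. -/
theorem exists_ders (hP : AlgebraicIndependent ℚ (fun ij : Fin n × Fin 2 => P ij.1 ij.2))
    (q : Fin n) : ∃ (D : Fin n → Fin 2 → Derivation ℚ K K),
      (∀ j b i c, ¬ (i = j ∧ c = b) → D j b (P i c) = 0) ∧
      (∀ i, (∑ j, (P j 1 - P q 1) • D j 0) (P i 0) = P i 1 - P q 1) ∧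
      (∀ i, (∑ j, (P j 1 - P q 1) • D j 0) (P i 1) = 0) ∧
      (∀ i, (∑ j, (P j 0 - P q 0) • D j 1) (P i 1) = P i 0 - P q 0) ∧
      (∀ i, (∑ j, (P j 0 - P q 0) • D j 1) (P i 0) = 0) := by
  classical
  choose D hD using fun j b => exists_der_val hP (fun i c => if i = j ∧ c = b then 1 else 0)
  refine ⟨D, fun j b i c h => ?_, fun i => ?_, fun i => ?_, fun i => ?_, fun i => ?_⟩
  · rw [hD, if_neg h]
  · rw [der_sum, Finset.sum_eq_single i]
    · rw [hD, if_pos ⟨rfl, rfl⟩, mul_one]
    · intro j _ hj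
      rw [hD, if_neg (fun h => hj h.1.symm), mul_zero]
    · intro h
      exact absurd (Finset.mem_univ _) h
  · rw [der_sum]
    refine Finset.sum_eq_zero fun j _ => ?_
    rw [hD, if_neg (fun h => absurd h.2 (by decide)), mul_zero]
  · rw [der_sum, Finset.sum_eq_single i]
    · rw [hD, if_pos ⟨rfl, rfl⟩, mul_one]
    · intro j _ hj
      rw [hD, if_neg (fun h => hj h.1.symm), mul_zero]
    · intro h
      exact absurd (Finset.mem_univ _) h
  · rw [der_sum]
    refine Finset.sum_eq_zero fun j _ => ?_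
    rw [hD, if_neg (fun h => absurd h.2 (by decide)), mul_zero]

/-- The degree of the form which generates the annihilator. -/
theorem deg_gen (hP : AlgebraicIndependent ℚ (fun ij : Fin n × Fin 2 => P ij.1 ij.2))
    {v m : ℕ} {h : Polynomial K} (h0 : h ≠ 0) (hI : II P d q w (v + m) = ml h (m + 1)) :
    h.natDegree = v := by
  have hX : (Polynomial.X ^ m : Polynomial K) ≠ 0 := pow_ne_zero _ Polynomial.X_ne_zero
  have hm : h * Polynomial.X ^ m ∈ II P d q w (v + m) := by
    rw [hI]
    refine mul_mem_ml ?_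
    rw [Polynomial.degree_X_pow]
    exact_mod_cast Nat.lt_succ_self m
  have hdeg : (h * Polynomial.X ^ m).natDegree = h.natDegree + m := by
    rw [Polynomial.natDegree_mul h0 hX, Polynomial.natDegree_X_pow]
  have hle : h.natDegree ≤ v := by
    have h1 := II_le hm
    rw [mem_degreeLT] at h1
    have h2 := nd_lt (Nat.succ_pos _) h1
    omega
  by_contra hne
  have hlt : h.natDegree < v := lt_of_le_of_ne hle hne
  obtain ⟨D, hD, -, -, h3, h4⟩ := exists_ders hP q
  set DF := ∑ j, (P j 0 - P q 0) • D j 1 with hDF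
  have hq : ∀ b, DF (P q b) = 0 := by
    intro b
    fin_cases b
    · exact h4 q
    · exact (h3 q).trans (sub_self _)
  have h5 := shear1_mem_II (D := DF) hq (fun i _ _ => h4 i) (fun i _ _ => h3 i) hm
  rw [hI] at h5
  have h6 := ml_le_lt le_rfl h5
  rw [mem_degreeLT, Polynomial.degree_lt_iff_coeff_zero] at h6
  have h7 := h6 (h.natDegree + (m + 1)) le_rfl
  have h8 : h.natDegree + (m + 1) = (h.natDegree + m) + 1 := rfl
  have h9 : (dP DF (h * Polynomial.X ^ m)).coeff (h.natDegree + m + 1) = 0 := by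
    refine Polynomial.coeff_eq_zero_of_natDegree_lt ?_
    have := natDegree_dP_le DF (h * Polynomial.X ^ m)
    omega
  have h10 : (Polynomial.X * Polynomial.derivative (h * Polynomial.X ^ m)).coeff
      (h.natDegree + m) = ((h.natDegree + m : ℕ) : K) * (h * Polynomial.X ^ m).coeff
        (h.natDegree + m) := by
    rcases Nat.eq_zero_or_pos (h.natDegree + m) with h11 | h11
    · rw [h11, Polynomial.mul_coeff_zero, Polynomial.coeff_X_zero, zero_mul, Nat.cast_zero,
        zero_mul]
    · obtain ⟨c, hc⟩ : ∃ c, h.natDegree + m = c + 1 := ⟨h.natDegree + m - 1, by omega⟩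
      rw [hc, Polynomial.coeff_X_mul, Polynomial.coeff_derivative]
      push_cast
      ring
  rw [h8, Polynomial.coeff_sub, Polynomial.coeff_sub, Polynomial.coeff_smul,
    Polynomial.coeff_X_mul, Polynomial.coeff_X_mul, h9, h10, smul_eq_mul, zero_sub,
    neg_eq_zero, ← sub_mul] at h7
  have h12 : (h * Polynomial.X ^ m).coeff (h.natDegree + m) ≠ 0 := by
    rw [← hdeg]
    change (h * Polynomial.X ^ m).leadingCoeff ≠ 0
    rw [Polynomial.leadingCoeff_ne_zero]
    exact mul_ne_zero h0 hX
  rcases mul_eq_zero.1 h7 with h13 | h13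
  · rw [sub_eq_zero] at h13
    have : v + m = h.natDegree + m := by exact_mod_cast h13
    omega
  · exact h12 h13

/-- The forms which generate the annihilators have no common factor. -/
theorem no_common (hP : AlgebraicIndependent ℚ (fun ij : Fin n × Fin 2 => P ij.1 ij.2))
    (ho : o ≠ q) (hwo : w o = 0) {k m : ℕ} {h : {j : Fin n // j ≠ q} → Polynomial K}
    (h0 : ∀ j, h j ≠ 0) (hI : ∀ j, II P d q (sw w o j.1) k = ml (h j) (m + 1)) :
    ¬ ∃ ℓ : Polynomial K, Irreducible ℓ ∧ ∀ j, ℓ ∣ h j := by
  rintro ⟨ℓ, hℓ, hdvd⟩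
  have hpr : Prime ℓ := hℓ.prime
  obtain ⟨D, hD, hE0, hE1, -, -⟩ := exists_ders hP q
  have hself : ∀ j, h j ∈ II P d q (sw w o j.1) k := fun j => by
    rw [hI]
    exact self_mem_ml _ _
  -- the partial derivatives
  have h1 : ∀ (j : Fin n) (b : Fin 2), j ≠ q → ℓ ∣ dP (D j b) ℓ := by
    intro j b hj
    refine prime_dvd (T := dP (D j b)) (dP_mul _) (h0 ⟨j, hj⟩) ?_ hpr (hdvd ⟨j, hj⟩)
    have h2 : dP (D j b) (h ⟨j, hj⟩) ∈ II P d q (sw w o j) k := by
      refine dP_mem_II (fun c => hD j b q c (fun h => hj h.1.symm)) (fun i _ hi c => ?_)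
        (hself ⟨j, hj⟩)
      refine hD j b i c (fun h => hi ?_)
      rw [h.1, sw_right, hwo]
    rw [hI ⟨j, hj⟩] at h2
    obtain ⟨g, -, hg⟩ := mem_ml.1 h2
    exact ⟨g, hg⟩
  set DE := ∑ j, (P j 1 - P q 1) • D j 0 with hDE
  have h2 : ℓ ∣ dP DE ℓ := by
    rw [hDE, dP_der_sum]
    refine Finset.dvd_sum fun j _ => ?_
    by_cases hj : j = q
    · subst hj
      rw [sub_self, Polynomial.C_0, zero_mul]
      exact dvd_zero _
    · exact Dvd.dvd.mul_left (h1 j 0 hj) _
  have h3 : ℓ ∣ dP DE ℓ - Polynomial.derivative ℓ := by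
    refine prime_dvd (T := fun f => dP DE f - Polynomial.derivative f) (fun f g => ?_)
      (h0 ⟨o, ho⟩) ?_ hpr (hdvd ⟨o, ho⟩)
    · rw [dP_mul, Polynomial.derivative_mul]
      ring
    · have h4 := shear0_mem_II (D := DE) (fun b => by
        fin_cases b
        · exact (hE0 q).trans (sub_self _)
        · exact hE1 q) (fun i _ _ => hE0 i) (fun i _ _ => hE1 i) (hself ⟨o, ho⟩)
      rw [hI ⟨o, ho⟩] at h4
      obtain ⟨g, -, hg⟩ := mem_ml.1 h4
      exact ⟨g, hg⟩
  have h4 : ℓ ∣ Polynomial.derivative ℓ := by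
    have := dvd_sub h2 h3
    rwa [sub_sub_cancel] at this
  have h5 : Polynomial.derivative ℓ ≠ 0 := by
    intro h6
    exact hℓ.natDegree_pos.ne' (Polynomial.derivative_eq_zero.1 h6)
  have h6 := Polynomial.degree_le_of_dvd h4 h5
  have h7 := Polynomial.degree_derivative_lt hℓ.ne_zero
  exact absurd (h7.trans_le h6) (lt_irrefl _)

theorem II_sh_iter (hP : AlgebraicIndependent ℚ (fun ij : Fin n × Fin 2 => P ij.1 ij.2))
    {k m : ℕ} {h : Polynomial K} (hI : ml h (m + 1) ≤ II P d q w k) (r : ℕ) :
    ml h (m + 1 + r) ≤ II P d q w (k + r) := by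
  induction r with
  | zero => exact hI
  | succ r ih =>
    rcases ml_sh_le h (m + 1 + r) with h1 | h1
    · exact (h1.trans (sh_mono ih)).trans (sh_II_le hP)
    · omega

/-- The comparison of the system `w'`, for which there is another point, with the system `w`. -/
def Above (w w' : Fin n → ℕ) (q o : Fin n) : Prop :=
  ∀ j, j ≠ q → ∀ i, i ≠ q → sw w o j i ≤ w' i

/-- **The key lemma.** -/
theorem stretch (hP : AlgebraicIndependent ℚ (fun ij : Fin n × Fin 2 => P ij.1 ij.2))
    (ho : o ≠ q) (hwo : w o = 0) (hw' : Above w w' q o) {v m : ℕ} (hv : 1 ≤ v)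
    (h1 : finrank K (II P d q w (v + m)) = m + 1)
    (h2 : finrank K (II P d q w (v + m + 1)) = m + 2) (i : ℕ) (hi : m ≤ i) :
    v + i + 1 ≤ finrank K (II P d q w' (v + i)) + (v - 1 - i) := by
  have h3 : ∀ j : {j : Fin n // j ≠ q}, ∃ κ : Polynomial K, κ ≠ 0 ∧
      II P d q (sw w o j.1) (v + m) = ml κ (m + 1) := by
    intro j
    refine ec m _ ?_ ?_
    · rw [finrank_II_sw hP ho j.2, h1]
    · rw [← h2, ← finrank_II_sw hP ho j.2]
      exact Submodule.finrank_mono (sh_II_le hP)
  choose h h0 hI using h3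
  have hne : Nonempty {j : Fin n // j ≠ q} := ⟨⟨o, ho⟩⟩
  have h4 := grow hv (fun j => deg_gen hP (h0 j) (hI j)) (no_common hP ho hwo h0 hI) i
  have h5 : NN h i ≤ II P d q w' (v + i) := by
    refine iSup_le fun j => ?_
    obtain ⟨r, rfl⟩ := Nat.exists_eq_add_of_le hi
    have h6 := II_sh_iter (d := d) (q := q) (w := sw w o j.1) hP (hI j).ge r
    have h7 : m + r + 1 = m + 1 + r := by omega
    have h8 : v + (m + r) = v + m + r := by omega
    rw [h7, h8]
    exact h6.trans (II_mono fun i hi => hw' j.1 j.2 i hi)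
  have h6 := Submodule.finrank_mono h5
  omega

/-- A space of symbols which is stable under the two shears. -/
theorem all_of_stable {A : Submodule K (Polynomial K)} {l : ℕ} (hA : A ≠ ⊥)
    (hle : A ≤ degreeLT K (l + 1))
    (h1 : ∀ φ ∈ A, Polynomial.derivative φ ∈ A)
    (h2 : ∀ φ ∈ A, (l : K) • (Polynomial.X * φ) -
      Polynomial.X * (Polynomial.X * Polynomial.derivative φ) ∈ A) :
    A = degreeLT K (l + 1) := by
  have h3 : (1 : Polynomial K) ∈ A := by
    obtain ⟨φ, hφ, hφ0⟩ := Submodule.exists_mem_ne_zero_of_ne_bot hA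
    have h4 : ∀ (m : ℕ) (φ : Polynomial K), φ ∈ A → φ ≠ 0 → φ.natDegree = m →
        (1 : Polynomial K) ∈ A := by
      intro m
      induction m with
      | zero =>
        intro φ hφ hφ0 hdeg
        have h5 := Polynomial.eq_C_of_natDegree_eq_zero hdeg
        have h6 : φ.coeff 0 ≠ 0 := by
          intro h7
          rw [h7, Polynomial.C_0] at h5
          exact hφ0 h5
        have h7 : (1 : Polynomial K) = (φ.coeff 0)⁻¹ • φ := by
          conv_rhs => rw [h5]
          rw [Polynomial.smul_C, smul_eq_mul, Polynomial.coeff_C_zero, inv_mul_cancel₀ h6,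
            Polynomial.C_1]
        rw [h7]
        exact A.smul_mem _ hφ
      | succ m ih =>
        intro φ hφ hφ0 hdeg
        refine ih (Polynomial.derivative φ) (h1 φ hφ) ?_ ?_
        · intro h5
          rw [Polynomial.derivative_eq_zero] at h5
          omega
        · rw [Polynomial.natDegree_derivative, hdeg, Nat.add_sub_cancel]
    exact h4 _ φ hφ hφ0 rfl
  have h4 : ∀ i, i ≤ l → (Polynomial.X ^ i : Polynomial K) ∈ A := by
    intro i
    induction i with
    | zero =>
      intro _
      rw [pow_zero]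
      exact h3
    | succ i ih =>
      intro hi
      have h5 := h2 _ (ih (by omega))
      have h6 : (l : K) • (Polynomial.X * Polynomial.X ^ i) -
          Polynomial.X * (Polynomial.X * Polynomial.derivative (Polynomial.X ^ i)) =
          ((l : K) - i) • (Polynomial.X ^ (i + 1) : Polynomial K) := by
        ext m
        rw [Polynomial.derivative_X_pow]
        rcases Nat.eq_zero_or_pos i with h7 | h7
        · subst h7
          simp
        · obtain ⟨c, rfl⟩ : ∃ c, i = c + 1 := ⟨i - 1, by omega⟩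
          rw [Nat.add_sub_cancel]
          have h8 : Polynomial.X * (Polynomial.X * (Polynomial.C ((c + 1 : ℕ) : K) *
              Polynomial.X ^ c)) = ((c + 1 : ℕ) : K) • (Polynomial.X ^ (c + 1 + 1) :
                Polynomial K) := by
            rw [Polynomial.smul_eq_C_mul]
            ring
          have h9 : (Polynomial.X * Polynomial.X ^ (c + 1) : Polynomial K) =
              Polynomial.X ^ (c + 1 + 1) := by ring
          rw [h8, h9, sub_smul]
      rw [h6] at h5
      have h7 : ((l : K) - i) ≠ 0 := by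
        rw [sub_ne_zero]
        intro h8
        have : l = i := by exact_mod_cast h8
        omega
      have h8 := A.smul_mem ((l : K) - i)⁻¹ h5
      rwa [smul_smul, inv_mul_cancel₀ h7, one_smul] at h8
  classical
  refine le_antisymm hle ?_
  rw [Polynomial.degreeLT_eq_span_X_pow, Submodule.span_le]
  intro x hx
  rw [Finset.mem_coe, Finset.mem_image] at hx
  obtain ⟨i, hi, rfl⟩ := hx
  exact h4 i (Nat.lt_succ_iff.1 (Finset.mem_range.1 hi))

/-- The strict inequality. -/
theorem drop (hP : AlgebraicIndependent ℚ (fun ij : Fin n × Fin 2 => P ij.1 ij.2))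
    (ho : o ≠ q) (hwo : w o = 0) (hw' : Above w w' q o) {l : ℕ}
    (h1 : 1 ≤ finrank K (II P d q w l)) (h2 : finrank K (II P d q w l) ≤ l) :
    finrank K (II P d q w l) + 1 ≤ finrank K (II P d q w' l) := by
  by_contra hcon
  have h3 : ∀ j, j ≠ q → II P d q (sw w o j) l = II P d q w' l := by
    intro j hj
    refine Submodule.eq_of_le_of_finrank_le (II_mono fun i hi => hw' j hj i hi) ?_
    rw [finrank_II_sw hP ho hj]
    omega
  have h4 : II P d q w l = II P d q w' l := by
    rw [← h3 o ho]
    congr 1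
    funext i
    unfold sw
    rw [Equiv.swap_self, Equiv.refl_apply]
  obtain ⟨D, hD, hE0, hE1, hF1, hF0⟩ := exists_ders hP q
  set DE := ∑ j, (P j 1 - P q 1) • D j 0 with hDE
  set DF := ∑ j, (P j 0 - P q 0) • D j 1 with hDF
  have hstab : ∀ j b, j ≠ q → ∀ φ ∈ II P d q w l, dP (D j b) φ ∈ II P d q w l := by
    intro j b hj φ hφ
    rw [h4, ← h3 j hj] at hφ ⊢
    refine dP_mem_II (fun c => hD j b q c (fun h => hj h.1.symm)) (fun i _ hi c => ?_) hφ
    refine hD j b i c (fun h => hi ?_)
    rw [h.1, sw_right, hwo]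
  have hsum : ∀ (c : Fin n → K) (b : Fin 2), c q = 0 → ∀ φ ∈ II P d q w l,
      dP (∑ j, c j • D j b) φ ∈ II P d q w l := by
    intro c b hc φ hφ
    rw [dP_der_sum]
    refine Submodule.sum_mem _ fun j _ => ?_
    rw [← Polynomial.smul_eq_C_mul]
    by_cases hj : j = q
    · subst hj
      rw [hc, zero_smul]
      exact Submodule.zero_mem _
    · exact Submodule.smul_mem _ _ (hstab j b hj φ hφ)
  have h5 : ∀ φ ∈ II P d q w l, Polynomial.derivative φ ∈ II P d q w l := by
    intro φ hφ
    have e1 := shear0_mem_II (D := DE) (fun b => by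
      fin_cases b
      · exact (hE0 q).trans (sub_self _)
      · exact hE1 q) (fun i _ _ => hE0 i) (fun i _ _ => hE1 i) hφ
    have e2 := hsum (fun j => P j 1 - P q 1) 0 (sub_self _) φ hφ
    have e3 := Submodule.sub_mem _ e2 e1
    rwa [sub_sub_cancel] at e3
  have h6 : ∀ φ ∈ II P d q w l, (l : K) • (Polynomial.X * φ) -
      Polynomial.X * (Polynomial.X * Polynomial.derivative φ) ∈ II P d q w l := by
    intro φ hφ
    have e1 := shear1_mem_II (D := DF) (fun b => by
      fin_cases b
      · exact hF0 q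
      · exact (hF1 q).trans (sub_self _)) (fun i _ _ => hF0 i) (fun i _ _ => hF1 i) hφ
    have e2 := hsum (fun j => P j 0 - P q 0) 1 (sub_self _) φ hφ
    have e3 := Submodule.sub_mem _ e2 e1
    rwa [sub_sub_cancel] at e3
  have h7 : II P d q w l ≠ ⊥ := by
    intro h8
    rw [h8, finrank_bot] at h1
    omega
  have h8 := all_of_stable h7 II_le h5 h6
  rw [h8, finrank_degreeLT] at h2
  omega

end Pool.Agent.K4H28.SP
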