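import Pool.Agent.K4H28.SP.EC
import Pool.Agent.K4H28.SP.Der
import Pool.Agent.H248R6.Move

set_option autoImplicit false
set_option linter.unusedSectionVars false

/-!
# The symbols which annihilate the leading forms at a point
-/

namespace Pool.Agent.K4H28.SP

open MvPolynomial Module Pool.Agent.H248R5 Pool.Agent.H248R6
open Polynomial (degreeLT mem_degreeLT)

variable {K : Type} [Field K] [CharZero K]

/-- The exponent of `x ^ a y ^ b`. -/
noncomputable def ex (a b : ℕ) : Fin 2 →₀ ℕ := Finsupp.single 0 a + Finsupp.single 1 b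

theorem ex_zero (a b : ℕ) : ex a b 0 = a := by simp [ex]

theorem ex_one (a b : ℕ) : ex a b 1 = b := by simp [ex]

theorem ex_degree (a b : ℕ) : (ex a b).degree = a + b := by
  unfold ex
  rw [map_add, Finsupp.degree_single, Finsupp.degree_single]

theorem ex_surj (s : Fin 2 →₀ ℕ) : s = ex (s 0) (s 1) := by
  ext i
  fin_cases i
  · exact (ex_zero _ _).symm
  · exact (ex_one _ _).symm

/-- The value of the differential operator with symbol `φ` of degree `k` at the origin. -/
noncomputable def pr (k : ℕ) (φ : Polynomial K) (F : MvPolynomial (Fin 2) K) : K :=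
  ∑ b ∈ Finset.range (k + 1),
    φ.coeff b * (((k - b).factorial * b.factorial : ℕ) : K) * coeff (ex (k - b) b) F

theorem pr_add (k : ℕ) (φ ψ : Polynomial K) (F : MvPolynomial (Fin 2) K) :
    pr k (φ + ψ) F = pr k φ F + pr k ψ F := by
  unfold pr
  rw [← Finset.sum_add_distrib]
  refine Finset.sum_congr rfl fun b _ => ?_
  rw [Polynomial.coeff_add]
  ring

theorem pr_sub (k : ℕ) (φ ψ : Polynomial K) (F : MvPolynomial (Fin 2) K) :
    pr k (φ - ψ) F = pr k φ F - pr k ψ F := by
  unfold pr
  rw [← Finset.sum_sub_distrib]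
  refine Finset.sum_congr rfl fun b _ => ?_
  rw [Polynomial.coeff_sub]
  ring

theorem pr_smul (k : ℕ) (c : K) (φ : Polynomial K) (F : MvPolynomial (Fin 2) K) :
    pr k (c • φ) F = c * pr k φ F := by
  unfold pr
  rw [Finset.mul_sum]
  refine Finset.sum_congr rfl fun b _ => ?_
  rw [Polynomial.coeff_smul, smul_eq_mul]
  ring

theorem pr_add' (k : ℕ) (φ : Polynomial K) (F G : MvPolynomial (Fin 2) K) :
    pr k φ (F + G) = pr k φ F + pr k φ G := by
  unfold pr
  rw [← Finset.sum_add_distrib]
  refine Finset.sum_congr rfl fun b _ => ?_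
  rw [coeff_add]
  ring

theorem pr_neg' (k : ℕ) (φ : Polynomial K) (F : MvPolynomial (Fin 2) K) :
    pr k φ (-F) = - pr k φ F := by
  unfold pr
  rw [← Finset.sum_neg_distrib]
  refine Finset.sum_congr rfl fun b _ => ?_
  rw [coeff_neg]
  ring

theorem pr_zero (k : ℕ) (F : MvPolynomial (Fin 2) K) : pr k 0 F = 0 := by
  unfold pr
  simp

/-- The Leibniz rule for a derivation of the coefficients. -/
theorem pr_der (D : Derivation ℚ K K) (k : ℕ) (φ : Polynomial K) (F : MvPolynomial (Fin 2) K) :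
    D (pr k φ F) = pr k (dP D φ) F + pr k φ (dG D F) := by
  unfold pr
  rw [map_sum, ← Finset.sum_add_distrib]
  refine Finset.sum_congr rfl fun b _ => ?_
  have h1 : ∀ n : ℕ, D ((n : ℕ) : K) = 0 := fun n => D.map_natCast n
  rw [Derivation.leibniz, Derivation.leibniz, h1, coeff_dP, coeff_dG]
  simp only [smul_eq_mul]
  ring

theorem coeff_pd0 (F : MvPolynomial (Fin 2) K) (a b : ℕ) :
    coeff (ex a b) (pderiv 0 F) = ((a : K) + 1) * coeff (ex (a + 1) b) F := by
  rw [coeff_pderiv, ex_zero]
  have : ex a b + Finsupp.single 0 1 = ex (a + 1) b := by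
    unfold ex
    rw [Finsupp.single_add]
    abel
  rw [this, mul_comm]

theorem coeff_pd1 (F : MvPolynomial (Fin 2) K) (a b : ℕ) :
    coeff (ex a b) (pderiv 1 F) = ((b : K) + 1) * coeff (ex a (b + 1)) F := by
  rw [coeff_pderiv, ex_one]
  have : ex a b + Finsupp.single 1 1 = ex a (b + 1) := by
    unfold ex
    rw [Finsupp.single_add]
    abel
  rw [this, mul_comm]

theorem coeff_X1 (F : MvPolynomial (Fin 2) K) (a b : ℕ) :
    coeff (ex a (b + 1)) (X 1 * F) = coeff (ex a b) F := by
  have : ex a (b + 1) = Finsupp.single 1 1 + ex a b := by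
    unfold ex
    rw [Finsupp.single_add]
    abel
  rw [this, coeff_X_mul]

theorem coeff_X1_zero (F : MvPolynomial (Fin 2) K) (a : ℕ) :
    coeff (ex a 0) (X 1 * F) = 0 := by
  rw [coeff_X_mul', if_neg]
  rw [Finsupp.mem_support_iff, ex_one]
  simp

theorem coeff_X0 (F : MvPolynomial (Fin 2) K) (a b : ℕ) :
    coeff (ex (a + 1) b) (X 0 * F) = coeff (ex a b) F := by
  have : ex (a + 1) b = Finsupp.single 0 1 + ex a b := by
    unfold ex
    rw [Finsupp.single_add]
    abel
  rw [this, coeff_X_mul]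

theorem coeff_X0_zero (F : MvPolynomial (Fin 2) K) (b : ℕ) :
    coeff (ex 0 b) (X 0 * F) = 0 := by
  rw [coeff_X_mul', if_neg]
  rw [Finsupp.mem_support_iff, ex_zero]
  simp

/-- The symbol `∂x φ`. -/
theorem pr_pd0 (k : ℕ) {φ : Polynomial K} (hφ : φ ∈ degreeLT K (k + 1))
    (F : MvPolynomial (Fin 2) K) : pr k φ (pderiv 0 F) = pr (k + 1) φ F := by
  unfold pr
  rw [Finset.sum_range_succ _ (k + 1)]
  have h1 : φ.coeff (k + 1) = 0 := by
    rw [mem_degreeLT, Polynomial.degree_lt_iff_coeff_zero] at hφ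
    exact hφ _ le_rfl
  rw [h1, zero_mul, zero_mul, add_zero]
  refine Finset.sum_congr rfl fun b hb => ?_
  have hb' : b ≤ k := Nat.lt_succ_iff.1 (Finset.mem_range.1 hb)
  obtain ⟨a, rfl⟩ := Nat.exists_eq_add_of_le hb'
  have e1 : b + a - b = a := by omega
  have e2 : b + a + 1 - b = a + 1 := by omega
  rw [coeff_pd0, e1, e2, Nat.factorial_succ]
  push_cast
  ring

/-- The symbol `∂y φ`. -/
theorem pr_pd1 (k : ℕ) (φ : Polynomial K) (F : MvPolynomial (Fin 2) K) :
    pr k φ (pderiv 1 F) = pr (k + 1) (Polynomial.X * φ) F := by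
  unfold pr
  rw [Finset.sum_range_succ' _ (k + 1)]
  rw [Polynomial.mul_coeff_zero, Polynomial.coeff_X_zero, zero_mul, zero_mul, zero_mul, add_zero]
  refine Finset.sum_congr rfl fun b hb => ?_
  have e1 : k + 1 - (b + 1) = k - b := by omega
  rw [coeff_pd1, e1, Polynomial.coeff_X_mul, Nat.factorial_succ b]
  push_cast
  ring

/-- The first shear. -/
theorem pr_E (k : ℕ) {φ : Polynomial K} (hφ : φ ∈ degreeLT K (k + 1))
    (F : MvPolynomial (Fin 2) K) :
    pr k φ (X 1 * pderiv 0 F) = pr k (Polynomial.derivative φ) F := by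
  unfold pr
  rw [Finset.sum_range_succ' _ k, Finset.sum_range_succ _ k, coeff_X1_zero, mul_zero, add_zero]
  have h1 : φ.coeff (k + 1) = 0 := by
    rw [mem_degreeLT, Polynomial.degree_lt_iff_coeff_zero] at hφ
    exact hφ _ le_rfl
  rw [Polynomial.coeff_derivative, h1, zero_mul, zero_mul, zero_mul, add_zero]
  refine Finset.sum_congr rfl fun b hb => ?_
  have hb' : b < k := Finset.mem_range.1 hb
  obtain ⟨a, rfl⟩ : ∃ a, k = b + 1 + a := Nat.exists_eq_add_of_le hb'
  have e1 : b + 1 + a - (b + 1) = a := by omega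
  have e2 : b + 1 + a - b = a + 1 := by omega
  rw [coeff_X1, coeff_pd0, Polynomial.coeff_derivative, e1, e2, Nat.factorial_succ a,
    Nat.factorial_succ b]
  push_cast
  ring

/-- The second shear. -/
theorem pr_F (k : ℕ) (φ : Polynomial K) (F : MvPolynomial (Fin 2) K) :
    pr k φ (X 0 * pderiv 1 F) = pr k ((k : K) • (Polynomial.X * φ) -
      Polynomial.X * (Polynomial.X * Polynomial.derivative φ)) F := by
  unfold pr
  rw [Finset.sum_range_succ _ k, Finset.sum_range_succ' _ k]
  have e0 : k - k = 0 := by omega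
  rw [e0, coeff_X0_zero, mul_zero, add_zero]
  have h1 : (((k : K) • (Polynomial.X * φ) -
      Polynomial.X * (Polynomial.X * Polynomial.derivative φ)) : Polynomial K).coeff 0 = 0 := by
    rw [Polynomial.coeff_sub, Polynomial.coeff_smul, Polynomial.mul_coeff_zero,
      Polynomial.mul_coeff_zero, Polynomial.coeff_X_zero, zero_mul, zero_mul, smul_zero, sub_zero]
  rw [h1, zero_mul, zero_mul, add_zero]
  refine Finset.sum_congr rfl fun b hb => ?_
  have hb' : b < k := Finset.mem_range.1 hb
  obtain ⟨a, rfl⟩ : ∃ a, k = b + 1 + a := Nat.exists_eq_add_of_le hb'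
  have e1 : b + 1 + a - (b + 1) = a := by omega
  have e2 : b + 1 + a - b = a + 1 := by omega
  have h2 : (((b + 1 + a : ℕ) : K) • (Polynomial.X * φ) -
      Polynomial.X * (Polynomial.X * Polynomial.derivative φ) : Polynomial K).coeff (b + 1) =
      ((a : K) + 1) * φ.coeff b := by
    rw [Polynomial.coeff_sub, Polynomial.coeff_smul, Polynomial.coeff_X_mul,
      Polynomial.coeff_X_mul, smul_eq_mul]
    rcases Nat.eq_zero_or_pos b with hb0 | hb0
    · subst hb0
      rw [Polynomial.mul_coeff_zero, Polynomial.coeff_X_zero, zero_mul, sub_zero]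
      push_cast
      ring
    · obtain ⟨c, rfl⟩ : ∃ c, b = c + 1 := ⟨b - 1, by omega⟩
      rw [Polynomial.coeff_X_mul, Polynomial.coeff_derivative]
      push_cast
      ring
  rw [h2, e1, e2, coeff_X0, coeff_pd1, Nat.factorial_succ a, Nat.factorial_succ b]
  push_cast
  ring

end Pool.Agent.K4H28.SP
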