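import Pool.Agent.K4H28.SP.Fin
import Pool.Agent.TH167.TT.Nine

set_option autoImplicit false
set_option linter.unusedSectionVars false

/-!
# The nine largest multiplicities
-/

namespace Pool.Agent.K4H28.SP

open MvPolynomial Module Pool.Agent.H248R5 Pool.Agent.H248R6

variable {s : ℕ} {m : Fin s → ℕ} {d : ℕ}

/-- Any three multiplicities have sum at most the degree. -/
def Red3 (d : ℕ) (m : Fin s → ℕ) : Prop :=
  (∀ i, m i ≤ d) ∧ (∀ i j, i ≠ j → m i + m j ≤ d) ∧
    ∀ i j k, i ≠ j → i ≠ k → j ≠ k → m i + m j + m k ≤ d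

theorem Red3.ext0 (h : Red3 d m) : Red3 d (ext0 m) := by
  obtain ⟨h1, h2, h3⟩ := h
  refine ⟨fun i => ?_, fun i j => ?_, fun i j k => ?_⟩
  · exact Fin.cases (Nat.zero_le _) (fun i => h1 i) i
  · refine Fin.cases ?_ (fun i => ?_) i
    · refine Fin.cases (fun h => absurd rfl h) (fun j _ => ?_) j
      change 0 + m j ≤ d
      rw [zero_add]
      exact h1 j
    · refine Fin.cases (fun _ => ?_) (fun j h => ?_) j
      · change m i + 0 ≤ d
        exact h1 i
      · exact h2 i j (fun h' => h (by rw [h']))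
  · refine Fin.cases ?_ (fun i => ?_) i
    · refine Fin.cases (fun h => absurd rfl h) (fun j _ => ?_) j
      refine Fin.cases (fun h => absurd rfl h) (fun k _ h => ?_) k
      change 0 + m j + m k ≤ d
      rw [zero_add]
      exact h2 j k (fun h' => h (by rw [h']))
    · refine Fin.cases (fun _ => ?_) (fun j hij => ?_) j
      · refine Fin.cases (fun _ h => absurd rfl h) (fun k h _ => ?_) k
        change m i + 0 + m k ≤ d
        rw [add_zero]
        exact h2 i k (fun h' => h (by rw [h']))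
      · refine Fin.cases (fun _ _ => ?_) (fun k hik hjk => ?_) k
        · change m i + m j + 0 ≤ d
          rw [add_zero]
          exact h2 i j (fun h' => hij (by rw [h']))
        · exact h3 i j k (fun h' => hij (by rw [h'])) (fun h' => hik (by rw [h']))
            (fun h' => hjk (by rw [h']))

theorem Red3.res (h : Red3 d m) (T : Finset (Fin s)) : Red3 d (res m T) := by
  have hle : ∀ i, SP.res m T i ≤ m i := by
    intro i
    unfold SP.res
    split_ifs
    · exact le_rfl
    · exact Nat.zero_le _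
  obtain ⟨h1, h2, h3⟩ := h
  refine ⟨fun i => (hle i).trans (h1 i), fun i j hij => ?_, fun i j k hij hik hjk => ?_⟩
  · have := h2 i j hij
    have := hle i
    have := hle j
    omega
  · have := h3 i j k hij hik hjk
    have := hle i
    have := hle j
    have := hle k
    omega

theorem gd_ext0' : gd (ext0 m) d = gd m d := by
  rw [← gd_ext0 (m := m), finrank_gen (gpt_ind (s + 1))]

theorem sum_ext0 : ∑ i, (ext0 m i + 1).choose 2 = ∑ i, (m i + 1).choose 2 := by
  rw [Fin.sum_univ_succ]
  have h2 : (ext0 m 0 + 1).choose 2 = 0 := rfl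
  rw [h2, zero_add]
  rfl

theorem card_ext0 : (Finset.univ.filter fun j => ext0 m j ≠ 0).card =
    (Finset.univ.filter fun j => m j ≠ 0).card := by
  classical
  have h1 : (Finset.univ.filter fun j => ext0 m j ≠ 0) =
      (Finset.univ.filter fun j => m j ≠ 0).map (Fin.succEmb s) := by
    ext j
    rw [Finset.mem_filter, Finset.mem_map]
    constructor
    · rintro ⟨-, h⟩
      revert h
      refine Fin.cases (fun h => absurd rfl h) (fun j h => ?_) j
      exact ⟨j, Finset.mem_filter.2 ⟨Finset.mem_univ _, h⟩, rfl⟩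
    · rintro ⟨i, hi, rfl⟩
      exact ⟨Finset.mem_univ _, (Finset.mem_filter.1 hi).2⟩
  rw [h1, Finset.card_map]

/-- At most nine points. -/
theorem gd_le_nine (h : Red3 d m) (h9 : (Finset.univ.filter fun j => m j ≠ 0).card ≤ 9) :
    gd m d + ∑ i, (m i + 1).choose 2 = (d + 2).choose 2 := by
  have h1 : Red3 d (SP.ext0 (SP.ext0 (SP.ext0 (SP.ext0 m)))) := h.ext0.ext0.ext0.ext0
  have h2 := TH167.TT.nine (r := s) (K := PtF (s + 4)) (P := gpt (s + 4)) (gpt_ind (s + 4)) (d := d)
    (w := (SP.ext0 (SP.ext0 (SP.ext0 (SP.ext0 m))) : Fin (s + 4) → ℕ)) h1.2.2 (by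
      have h3 := (card_ext0 (m := SP.ext0 (SP.ext0 (SP.ext0 m)))).trans
        ((card_ext0 (m := SP.ext0 (SP.ext0 m))).trans
          ((card_ext0 (m := SP.ext0 m)).trans (card_ext0 (m := m))))
      rw [← h3] at h9
      exact h9)
  rw [W609.CR.vs_eq_forms, finrank_gen (gpt_ind (s + 4))] at h2
  have h4 : ∑ j, ((SP.ext0 (SP.ext0 (SP.ext0 (SP.ext0 m))) : Fin (s + 4) → ℕ) j + 1).choose 2 =
      ∑ i, (m i + 1).choose 2 := by
    exact (sum_ext0 (m := SP.ext0 (SP.ext0 (SP.ext0 m)))).trans
      ((sum_ext0 (m := SP.ext0 (SP.ext0 m))).trans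
        ((sum_ext0 (m := SP.ext0 m)).trans (sum_ext0 (m := m))))
  have h5 : gd (SP.ext0 (SP.ext0 (SP.ext0 (SP.ext0 m))) : Fin (s + 4) → ℕ) d = gd m d := by
    exact (gd_ext0' (m := SP.ext0 (SP.ext0 (SP.ext0 m))) (d := d)).trans
      ((gd_ext0' (m := SP.ext0 (SP.ext0 m)) (d := d)).trans
        ((gd_ext0' (m := SP.ext0 m) (d := d)).trans (gd_ext0' (m := m) (d := d))))
  rw [h4, h5] at h2
  exact h2

/-- The upper bound in the range of Q1. -/
theorem gd_upper9 (h : Red3 d m) {T : Finset (Fin s)} (hT : T.card ≤ 9) {A b : ℕ}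
    (hA : ∀ j ∈ T, m j ≤ A) (hb : ∀ j, j ∉ T → m j ≤ b) (hba : b ≤ A) :
    gd m d + ∑ i, (m i + 1).choose 2 = (d + 2).choose 2 ∨ gd m d ≤ (A - 1) * (b - 1) := by
  classical
  refine gd_upperT (T := T) hA hb hba (Or.inl ?_)
  have h1 := gd_le_nine (m := SP.res m T) (d := d) (h.res T) (le_trans (Finset.card_le_card ?_) hT)
  · rw [← h1]
    congr 1
    have h2 : ∑ i, (SP.res m T i + 1).choose 2 = ∑ i ∈ T, (SP.res m T i + 1).choose 2 := by
      symm
      refine Finset.sum_subset (Finset.subset_univ _) fun i _ hi => ?_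
      rw [res_not hi]
      rfl
    rw [h2]
    refine Finset.sum_congr rfl fun i hi => ?_
    unfold SP.res
    rw [if_pos hi]
  · intro j hj
    by_contra hcon
    exact (Finset.mem_filter.1 hj).2 (res_not hcon)

end Pool.Agent.K4H28.SP
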