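import Mathlib

set_option autoImplicit false

/-!
# The numerical consequences of the comparison
-/

namespace Pool.Agent.K4H28.SP

/-- The properties of the dimensions `i k` of the annihilators for a system, and of those `i' k`
for the system with one more point. -/
structure Num (i i' : ℕ → ℕ) : Prop where
  up : ∀ k, 1 ≤ i k → i k + 1 ≤ i (k + 1)
  le : ∀ k, i k ≤ k + 1
  le' : ∀ k, i' k ≤ k + 1
  mono : ∀ k, i k ≤ i' k
  str : ∀ v m, 1 ≤ v → i (v + m) = m + 1 → i (v + m + 1) = m + 2 → ∀ j, m ≤ j →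
    v + j + 1 ≤ i' (v + j) + (v - 1 - j)
  drop : ∀ l, 1 ≤ i l → i l ≤ l → i l + 1 ≤ i' l

variable {i i' : ℕ → ℕ}

theorem Num.pos (h : Num i i') {μ : ℕ} (h1 : 1 ≤ i μ) (r : ℕ) : r + 1 ≤ i (μ + r) := by
  induction r with
  | zero => exact h1
  | succ r ih =>
    have := h.up (μ + r) (by omega)
    have h2 : μ + (r + 1) = μ + r + 1 := rfl
    rw [h2]
    omega

theorem Num.lemB_aux (h : Num i i') {μ : ℕ} (h1 : 1 ≤ i μ) (r : ℕ) :
    (∃ v m, 1 ≤ v ∧ v ≤ μ ∧ i (v + m) = m + 1 ∧ i (v + m + 1) = m + 2 ∧ v + m + 1 ≤ μ + r) ∨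
      μ + r + 1 ≤ i (μ + r) + (μ - r) := by
  induction r with
  | zero => right; simp only [Nat.add_zero, Nat.sub_zero]; omega
  | succ r ih =>
    rcases ih with ⟨v, m, a1, a2, a3, a4, a5⟩ | ih
    · exact Or.inl ⟨v, m, a1, a2, a3, a4, by omega⟩
    · have h2 := h.pos h1 r
      have h3 := h.up (μ + r) (by omega)
      have h4 := h.le (μ + r)
      have h6 := h.le (μ + r + 1)
      have h5 : μ + (r + 1) = μ + r + 1 := rfl
      rw [h5]
      rcases Nat.lt_or_ge (i (μ + r) + 1) (i (μ + r + 1)) with h7 | h7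
      · right
        omega
      · rcases Nat.lt_or_ge (i (μ + r)) (μ + r + 1) with h8 | h8
        · left
          obtain ⟨m, hm⟩ : ∃ m, i (μ + r) = m + 1 := ⟨i (μ + r) - 1, by omega⟩
          obtain ⟨v, hv⟩ : ∃ v, μ + r = v + m := ⟨μ + r - m, by omega⟩
          refine ⟨v, m, by omega, by omega, ?_, ?_, by omega⟩
          · rw [← hv, hm]
          · rw [← hv]
            omega
        · right
          omega

/-- **Lemma B.** -/
theorem Num.lemB (h : Num i i') {μ : ℕ} (h1 : 1 ≤ i μ) {l : ℕ} (hl : μ ≤ l) :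
    l + 1 ≤ i' l + (2 * μ - 1 - l) := by
  obtain ⟨r, rfl⟩ := Nat.exists_eq_add_of_le hl
  rcases h.lemB_aux h1 r with ⟨v, m, a1, a2, a3, a4, a5⟩ | h2
  · have h3 := h.str v m a1 a3 a4 (μ + r - v) (by omega)
    have h4 : v + (μ + r - v) = μ + r := by omega
    rw [h4] at h3
    omega
  · have h3 := h.pos h1 r
    have h4 := h.le (μ + r)
    rcases Nat.lt_or_ge (i (μ + r)) (μ + r + 1) with h5 | h5
    · have h6 := h.drop (μ + r) (by omega) (by omega)
      omega
    · have h6 := h.mono (μ + r)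
      omega

/-- The profile. -/
theorem Num.profile (h : Num i i') {l : ℕ} (hl : i' l ≤ l) (r : ℕ) (hr : r ≤ l) :
    i (l - r) = 0 ∨ i (l - r) + (l + 1) ≤ 2 * (l - r) := by
  induction r with
  | zero =>
    rcases Nat.eq_zero_or_pos (i l) with h1 | h1
    · left
      exact h1
    · right
      have h2 := h.mono l
      have h3 := h.drop l h1 (by omega)
      simp only [Nat.sub_zero]
      omega
  | succ r ih =>
    obtain ⟨k, hk⟩ : ∃ k, l - (r + 1) = k := ⟨_, rfl⟩
    have hk1 : l - r = k + 1 := by omega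
    rw [hk]
    rw [hk1] at ih
    rcases Nat.eq_zero_or_pos (i k) with h1 | h1
    · left
      exact h1
    · right
      have h2 := h.up k h1
      have h3 := ih (by omega)
      rcases h3 with h3 | h3
      · omega
      · rcases Nat.lt_or_ge (i k + 1) (i (k + 1)) with h4 | h4
        · omega
        · obtain ⟨m, hm⟩ : ∃ m, i k = m + 1 := ⟨i k - 1, by omega⟩
          obtain ⟨v, hv⟩ : ∃ v, k = v + m := ⟨k - m, by omega⟩
          have h5 := h.str v m (by omega) (by rw [← hv, hm]) (by rw [← hv]; omega) (l - v)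
            (by omega)
          have h6 : v + (l - v) = l := by omega
          rw [h6] at h5
          omega

/-- The dimensions of the systems with multiplicity at least `k` at a further point. -/
structure Dim (i L : ℕ → ℕ) (N : ℕ) : Prop where
  eq : ∀ k, i k + L k = k + 1 + L (k + 1)
  zero : ∀ k, N ≤ k → L k = 0

variable {L L' : ℕ → ℕ} {N : ℕ}

theorem Dim.sum (hL : Dim i L N) (k : ℕ) :
    L 0 + ∑ j ∈ Finset.range k, i j = L k + (k + 1).choose 2 := by
  induction k with
  | zero => simp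
  | succ k ih =>
    rw [Finset.sum_range_succ]
    have h1 := hL.eq k
    have h3 := Nat.choose_succ_succ' (k + 1) 1
    rw [Nat.choose_one_right] at h3
    have h4 : (k + 1).choose (1 + 1) = (k + 1).choose 2 := rfl
    have h5 : (k + 1 + 1).choose (1 + 1) = (k + 1 + 1).choose 2 := rfl
    omega

theorem Dim.anti (hL : Dim i L N) (hle : ∀ k, i k ≤ k + 1) (k r : ℕ) : L (k + r) ≤ L k := by
  induction r with
  | zero => exact le_rfl
  | succ r ih =>
    have h1 := hL.eq (k + r)
    have h2 := hle (k + r)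
    have h3 : k + (r + 1) = k + r + 1 := rfl
    rw [h3]
    omega

/-- The tail. -/
theorem Dim.tail (hL : Dim i' L' N) {μ : ℕ} (h : ∀ l, μ ≤ l → l + 1 ≤ i' l + (2 * μ - 1 - l)) (x : ℕ) :
    ∀ k, μ ≤ k → 2 * μ - 1 - k ≤ x → 2 * L' k ≤ x * (x + 1) := by
  induction x with
  | zero =>
    intro k hk hx
    have h1 : ∀ r, L' k ≤ L' (k + r) := by
      intro r
      induction r with
      | zero => exact le_rfl
      | succ r ih =>
        have h2 := h (k + r) (by omega)
        have h3 := hL.eq (k + r)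
        have h4 : k + (r + 1) = k + r + 1 := rfl
        rw [h4]
        omega
    have h2 := h1 N
    rw [hL.zero (k + N) (by omega)] at h2
    omega
  | succ x ih =>
    intro k hk hx
    have h1 := ih (k + 1) (by omega) (by omega)
    have h2 := h k hk
    have h3 := hL.eq k
    have h4 : L' k ≤ (x + 1) + L' (k + 1) := by omega
    nlinarith

/-- The bound for the dimension of the system with one more point. -/
theorem Dim.sq (hL : Dim i' L' N) {μ : ℕ} (h : ∀ l, μ ≤ l → l + 1 ≤ i' l + (2 * μ - 1 - l)) :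
    L' 0 ≤ μ * μ := by
  have h1 : ∀ k, 2 * L' 0 ≤ k * (k + 1) + 2 * L' k := by
    intro k
    induction k with
    | zero => simp
    | succ k ih =>
      have h2 := hL.eq k
      nlinarith
  have h2 := hL.tail h (μ - 1) μ le_rfl (by omega)
  have h3 := h1 μ
  rcases Nat.eq_zero_or_pos μ with h4 | h4
  · subst h4
    simp only [Nat.zero_sub, zero_mul] at h2
    simp only [zero_mul] at h3
    omega
  · obtain ⟨p, rfl⟩ : ∃ p, μ = p + 1 := ⟨μ - 1, by omega⟩
    rw [Nat.add_sub_cancel] at h2
    nlinarith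

/-- **Theorem G**, numerically. -/
theorem Num.bound (h : Num i i') (hL : Dim i L N) (hL' : Dim i' L' N) {μ : ℕ} (h1 : 1 ≤ i μ)
    (r : ℕ) (hr : L (μ + 1 + r) = L' 0) : L (μ + 1) ≤ (μ + r) * μ := by
  have h2 : ∀ r, L (μ + 1) ≤ r * μ + L (μ + 1 + r) := by
    intro r
    induction r with
    | zero => simp
    | succ r ih =>
      have h3 := h.pos h1 (r + 1)
      have h4 := hL.eq (μ + 1 + r)
      have h5 : μ + (r + 1) = μ + 1 + r := by omega
      rw [h5] at h3
      have h6 : μ + 1 + (r + 1) = μ + 1 + r + 1 := rfl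
      rw [h6]
      nlinarith
  have h3 := hL'.sq (fun l hl => h.lemB h1 hl)
  have h4 := h2 r
  rw [hr] at h4
  nlinarith

/-- The sum of the dimensions of the annihilators. -/
theorem sum_profile : ∀ m : ℕ, 4 * ∑ k ∈ Finset.range m, (2 * k - m) ≤ (m - 1) ^ 2 := by
  have key : ∀ m : ℕ, (4 * ∑ k ∈ Finset.range m, (2 * k - m) ≤ (m - 1) ^ 2) ∧
      (4 * ∑ k ∈ Finset.range (m + 1), (2 * k - (m + 1)) ≤ (m + 1 - 1) ^ 2) := by
    intro m
    induction m with
    | zero => simp
    | succ m ih =>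
      refine ⟨ih.2, ?_⟩
      have h1 : ∑ k ∈ Finset.range (m + 1 + 1), (2 * k - (m + 1 + 1)) =
          ∑ k ∈ Finset.range m, (2 * k - m) + m := by
        rw [Finset.sum_range_succ', Finset.sum_range_succ]
        have h2 : ∑ k ∈ Finset.range m, (2 * (k + 1) - (m + 1 + 1)) =
            ∑ k ∈ Finset.range m, (2 * k - m) :=
          Finset.sum_congr rfl fun k _ => by omega
        rw [h2]
        omega
      rw [h1]
      rcases Nat.eq_zero_or_pos m with h2 | h2
      · subst h2
        simp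
      · obtain ⟨p, rfl⟩ : ∃ p, m = p + 1 := ⟨m - 1, by omega⟩
        have h3 := ih.1
        simp only [Nat.add_sub_cancel] at h3 ⊢
        nlinarith
  exact fun m => (key m).1

/-- The sum of the dimensions of the annihilators, if one more point is possible. -/
theorem Num.sum_le (h : Num i i') {l m : ℕ} (hl : i' l ≤ l) (hm : m ≤ l + 1) :
    4 * ∑ k ∈ Finset.range m, i k ≤ (m - 1) ^ 2 := by
  refine le_trans ?_ (sum_profile m)
  refine Nat.mul_le_mul_left 4 (Finset.sum_le_sum fun k hk => ?_)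
  have hk' := Finset.mem_range.1 hk
  have h1 := h.profile hl (l - k) (by omega)
  have h2 : l - (l - k) = k := by omega
  rw [h2] at h1
  omega

theorem sum_arith (c : ℕ) : ∀ e : ℕ, ∑ r ∈ Finset.range e, (c + 1 + 2 * r) = e * (c + e) := by
  intro e
  induction e with
  | zero => simp
  | succ e ih =>
    rw [Finset.sum_range_succ, ih]
    ring

/-- The first index for which the annihilator is not zero. -/
theorem Num.first_fail (h : Num i i') {l m : ℕ} (hl : i' l ≤ l) (hm : m ≤ l + 1)
    (hne : ∑ k ∈ Finset.range m, i k ≠ 0) :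
    ∃ f e, 1 ≤ i f ∧ (f + e = m ∧ e + 1 ≤ f ∧ 1 ≤ e) ∧
      ∑ k ∈ Finset.range m, i k ≤ e * (f - 1) := by
  have hex : ∃ k, k < m ∧ 1 ≤ i k := by
    by_contra hcon
    push Not at hcon
    apply hne
    refine Finset.sum_eq_zero fun k hk => ?_
    have := hcon k (Finset.mem_range.1 hk)
    omega
  classical
  obtain ⟨hf1, hf2⟩ := Nat.find_spec hex
  have hmin : ∀ k, k < Nat.find hex → i k = 0 := by
    intro k hk
    have := Nat.find_min hex hk
    by_contra hcon
    exact this ⟨by omega, by omega⟩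
  set f := Nat.find hex with hf
  obtain ⟨e, he⟩ : ∃ e, m = f + e := ⟨m - f, by omega⟩
  have hp : ∀ k, k ≤ l → i k = 0 ∨ i k + (l + 1) ≤ 2 * k := by
    intro k hk
    have h1 := h.profile hl (l - k) (by omega)
    have h2 : l - (l - k) = k := by omega
    rwa [h2] at h1
  have h1 : i f + (l + 1) ≤ 2 * f := by
    rcases hp f (by omega) with h1 | h1
    · omega
    · exact h1
  refine ⟨f, e, hf2, ⟨he.symm, by omega, by omega⟩, ?_⟩
  obtain ⟨c, hc⟩ : ∃ c, f = e + 1 + c := ⟨f - (e + 1), by omega⟩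
  have h2 : ∑ k ∈ Finset.range m, i k = ∑ r ∈ Finset.range e, i (f + r) := by
    rw [he, Finset.sum_range_add]
    have h3 : ∑ k ∈ Finset.range f, i k = 0 :=
      Finset.sum_eq_zero fun k hk => hmin k (Finset.mem_range.1 hk)
    rw [h3, zero_add]
  have h3 : ∑ r ∈ Finset.range e, i (f + r) ≤ ∑ r ∈ Finset.range e, (c + 1 + 2 * r) := by
    refine Finset.sum_le_sum fun r hr => ?_
    have hr' := Finset.mem_range.1 hr
    rcases hp (f + r) (by omega) with h4 | h4
    · omega
    · omega
  rw [sum_arith] at h3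
  have h4 : f - 1 = c + e := by omega
  rw [h2, h4]
  exact h3

end Pool.Agent.K4H28.SP
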