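import Pool.Agent.K4H28.SP.Lead

set_option autoImplicit false
set_option linter.unusedSectionVars false

/-!
# The annihilators of the leading forms
-/

namespace Pool.Agent.K4H28.SP

open MvPolynomial Module Pool.Agent.H248R5 Pool.Agent.H248R6
open Polynomial (degreeLT mem_degreeLT degreeLTEquiv)

variable {K : Type} [Field K] {n : ℕ}

instance formsFin {n : ℕ} (w : Fin n → ℕ) (P : Fin n → Fin 2 → K) (d : ℕ) :
    FiniteDimensional K ↥(forms w P d) := by
  have h1 : Module.Finite K ↥(homogeneousSubmodule (Fin 3) K d) :=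
    Module.Finite.iff_fg.2 (homogeneousSubmodule_fg _ _ d)
  refine Submodule.finiteDimensional_of_le (S₂ := homogeneousSubmodule (Fin 3) K d) ?_
  unfold forms
  exact inf_le_left

/-- The forms with multiplicity at least `k` at the point with index `q`, and at least `w j` at the
other points. -/
noncomputable def LL (P : Fin n → Fin 2 → K) (d : ℕ) (q : Fin n) (w : Fin n → ℕ) (k : ℕ) :
    Submodule K (MvPolynomial (Fin 3) K) := forms (Function.update w q k) P d

variable {P : Fin n → Fin 2 → K} {d : ℕ} {q : Fin n} {w w' : Fin n → ℕ} {k : ℕ}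

instance : FiniteDimensional K ↥(LL P d q w k) := formsFin _ _ _

theorem mem_forms' {f : MvPolynomial (Fin 3) K} : f ∈ forms w P d ↔ f.IsHomogeneous d ∧
    ∀ i, ∀ s : Fin 2 →₀ ℕ, s.degree < w i → coeff s (tau (P i) f) = 0 := by
  rw [mem_forms]
  refine and_congr_right fun _ => forall_congr' fun i => ?_
  rw [mem_pow_idealOfVars_iff']

theorem forms_mono {f : MvPolynomial (Fin 3) K} (h : ∀ i, w i ≤ w' i) (hf : f ∈ forms w' P d) :
    f ∈ forms w P d := by
  rw [mem_forms'] at hf ⊢
  exact ⟨hf.1, fun i s hs => hf.2 i s (hs.trans_le (h i))⟩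

theorem forms_le (h : ∀ i, w i ≤ w' i) : forms w' P d ≤ forms w P d :=
  fun _ hf => forms_mono h hf

theorem LL_succ_le : LL P d q w (k + 1) ≤ LL P d q w k := by
  refine forms_le fun i => ?_
  by_cases hi : i = q
  · subst hi
    rw [Function.update_self, Function.update_self]
    exact Nat.le_succ k
  · rw [Function.update_of_ne hi, Function.update_of_ne hi]

/-- The coefficients of the terms of degree `k` at the point with index `q`. -/
noncomputable def ldg (P : Fin n → Fin 2 → K) (q : Fin n) (k : ℕ) :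
    MvPolynomial (Fin 3) K →ₗ[K] (Fin (k + 1) → K) :=
  LinearMap.pi fun b => (lcoeff K (ex (k - (b : ℕ)) (b : ℕ))) ∘ₗ (tau (P q)).toLinearMap

theorem ldg_apply (f : MvPolynomial (Fin 3) K) (b : Fin (k + 1)) :
    ldg P q k f b = coeff (ex (k - (b : ℕ)) (b : ℕ)) (tau (P q) f) := rfl

theorem ldg_eq_zero {f : MvPolynomial (Fin 3) K} : ldg P q k f = 0 ↔
    ∀ s : Fin 2 →₀ ℕ, s.degree = k → coeff s (tau (P q) f) = 0 := by
  constructor
  · intro h s hs
    have h1 : s.degree = s 0 + s 1 := by
      conv_lhs => rw [ex_surj s]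
      rw [ex_degree]
    have h2 := congrFun h ⟨s 1, by omega⟩
    rw [ldg_apply] at h2
    have h3 : ex (k - s 1) (s 1) = s := by
      have : k - s 1 = s 0 := by omega
      rw [this]
      exact (ex_surj s).symm
    simp only at h2
    rw [h3] at h2
    exact h2
  · intro h
    funext b
    rw [ldg_apply]
    refine h _ ?_
    rw [ex_degree]
    have := b.2
    omega

theorem mem_LL_succ {f : MvPolynomial (Fin 3) K} (hf : f ∈ LL P d q w k) :
    f ∈ LL P d q w (k + 1) ↔ ldg P q k f = 0 := by
  unfold LL at hf ⊢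
  rw [mem_forms'] at hf ⊢
  rw [ldg_eq_zero]
  constructor
  · rintro ⟨-, h⟩ s hs
    refine h q s ?_
    rw [Function.update_self]
    omega
  · intro h
    refine ⟨hf.1, fun i s hs => ?_⟩
    by_cases hi : i = q
    · subst hi
      rw [Function.update_self] at hs
      rcases Nat.lt_or_ge s.degree k with h1 | h1
      · refine hf.2 i s ?_
        rwa [Function.update_self]
      · exact h s (by omega)
    · rw [Function.update_of_ne hi] at hs
      refine hf.2 i s ?_
      rwa [Function.update_of_ne hi]

theorem finrank_map_ldg : finrank K ((LL P d q w k).map (ldg P q k)) +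
    finrank K (LL P d q w (k + 1)) = finrank K (LL P d q w k) := by
  have h1 := LinearMap.finrank_range_add_finrank_ker ((ldg P q k).domRestrict (LL P d q w k))
  have h2 : LinearMap.ker ((ldg P q k).domRestrict (LL P d q w k)) =
      (LL P d q w (k + 1)).comap (LL P d q w k).subtype := by
    ext f
    rw [LinearMap.mem_ker, LinearMap.domRestrict_apply, Submodule.mem_comap,
      Submodule.subtype_apply, mem_LL_succ f.2]
  rw [h2, LinearMap.range_domRestrict,
    LinearEquiv.finrank_eq (Submodule.comapSubtypeEquivOfLe LL_succ_le)] at h1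
  exact h1

variable [CharZero K]

/-- The symbols of degree `k` which annihilate the leading forms of degree `k` at the point with
index `q`. -/
noncomputable def II (P : Fin n → Fin 2 → K) (d : ℕ) (q : Fin n) (w : Fin n → ℕ) (k : ℕ) :
    Submodule K (Polynomial K) where
  carrier := {φ | φ ∈ degreeLT K (k + 1) ∧ ∀ f ∈ LL P d q w k, pr k φ (tau (P q) f) = 0}
  zero_mem' := ⟨Submodule.zero_mem _, fun f _ => pr_zero _ _⟩
  add_mem' := by
    rintro φ ψ ⟨h1, h2⟩ ⟨h3, h4⟩
    refine ⟨Submodule.add_mem _ h1 h3, fun f hf => ?_⟩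
    rw [pr_add, h2 f hf, h4 f hf, add_zero]
  smul_mem' := by
    rintro c φ ⟨h1, h2⟩
    refine ⟨Submodule.smul_mem _ _ h1, fun f hf => ?_⟩
    rw [pr_smul, h2 f hf, mul_zero]

theorem mem_II {φ : Polynomial K} : φ ∈ II P d q w k ↔ φ ∈ degreeLT K (k + 1) ∧
    ∀ f ∈ LL P d q w k, pr k φ (tau (P q) f) = 0 := Iff.rfl

theorem II_le : II P d q w k ≤ degreeLT K (k + 1) := fun _ h => h.1

instance : FiniteDimensional K ↥(II P d q w k) := Submodule.finiteDimensional_of_le II_le

theorem finrank_II_le : finrank K (II P d q w k) ≤ k + 1 := by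
  have h := Submodule.finrank_mono (II_le (P := P) (d := d) (q := q) (w := w) (k := k))
  rwa [finrank_degreeLT] at h

theorem II_mono (h : ∀ j, j ≠ q → w j ≤ w' j) : II P d q w k ≤ II P d q w' k := by
  rintro φ ⟨h1, h2⟩
  refine ⟨h1, fun f hf => h2 f ?_⟩
  refine forms_mono (fun i => ?_) hf
  by_cases hi : i = q
  · subst hi
    rw [Function.update_self, Function.update_self]
  · rw [Function.update_of_ne hi, Function.update_of_ne hi]
    exact h i hi

/-- The weights. -/
noncomputable def wt (K : Type) [Field K] (k : ℕ) (b : Fin (k + 1)) : K :=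
  (((k - (b : ℕ)).factorial * (b : ℕ).factorial : ℕ) : K)

theorem wt_ne (b : Fin (k + 1)) : wt K k b ≠ 0 := by
  unfold wt
  exact_mod_cast Nat.mul_ne_zero (Nat.factorial_ne_zero _) (Nat.factorial_ne_zero _)

/-- Symbols as functionals. -/
noncomputable def toDual (K : Type) [Field K] [CharZero K] (k : ℕ) :
    degreeLT K (k + 1) ≃ₗ[K] Dual K (Fin (k + 1) → K) :=
  (degreeLTEquiv K (k + 1)).trans ((LinearEquiv.piCongrRight fun b =>
    LinearEquiv.smulOfNeZero K K (wt K k b) (wt_ne b)).trans (dotProductEquiv K (Fin (k + 1))))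

theorem toDual_apply (φ : degreeLT K (k + 1)) (f : MvPolynomial (Fin 3) K) :
    toDual K k φ (ldg P q k f) = pr k (φ : Polynomial K) (tau (P q) f) := by
  have h1 : toDual K k φ (ldg P q k f) =
      ∑ b : Fin (k + 1), (wt K k b • (φ : Polynomial K).coeff b) * ldg P q k f b := rfl
  rw [h1]
  unfold pr
  rw [Finset.sum_range]
  refine Finset.sum_congr rfl fun b _ => ?_
  rw [ldg_apply, smul_eq_mul, mul_comm (wt K k b)]
  rfl

/-- The dimension of the annihilator. -/
theorem finrank_II : finrank K (II P d q w k) + finrank K (LL P d q w k) =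
    k + 1 + finrank K (LL P d q w (k + 1)) := by
  have h1 := Subspace.finrank_add_finrank_dualAnnihilator_eq
    ((LL P d q w k).map (ldg P q k))
  rw [finrank_fin_fun] at h1
  have h2 : (II P d q w k).comap (degreeLT K (k + 1)).subtype =
      ((LL P d q w k).map (ldg P q k)).dualAnnihilator.comap
        (toDual K k : degreeLT K (k + 1) →ₗ[K] Dual K (Fin (k + 1) → K)) := by
    ext φ
    rw [Submodule.mem_comap, Submodule.subtype_apply, Submodule.mem_comap,
      Submodule.mem_dualAnnihilator, mem_II]
    constructor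
    · rintro ⟨-, h⟩ _ ⟨f, hf, rfl⟩
      exact (toDual_apply φ f).trans (h f hf)
    · intro h
      refine ⟨φ.2, fun f hf => ?_⟩
      exact (toDual_apply φ f).symm.trans (h _ ⟨f, hf, rfl⟩)
  have h3 : finrank K (II P d q w k) =
      finrank K ↥((LL P d q w k).map (ldg P q k)).dualAnnihilator := by
    rw [← LinearEquiv.finrank_eq (Submodule.comapSubtypeEquivOfLe II_le), h2,
      Submodule.comap_equiv_eq_map_symm, LinearEquiv.finrank_map_eq]
  have h4 := finrank_map_ldg (P := P) (d := d) (q := q) (w := w) (k := k)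
  omega

end Pool.Agent.K4H28.SP
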