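import Pool.Agent.K4H28.SP.Sym
import Pool.Agent.H248R6.Der

set_option autoImplicit false
set_option linter.unusedSectionVars false

/-!
# The derivations which preserve the annihilators of the leading forms
-/

namespace Pool.Agent.K4H28.SP

open MvPolynomial Module Pool.Agent.H248R5 Pool.Agent.H248R6
open Polynomial (degreeLT mem_degreeLT degreeLTEquiv)

variable {K : Type} [Field K] [CharZero K] {n : ℕ}
variable {P : Fin n → Fin 2 → K} {d : ℕ} {q : Fin n} {w w' : Fin n → ℕ} {k : ℕ}

theorem der_sum {ι : Type} (s : Finset ι) (c : ι → K) (D : ι → Derivation ℚ K K) (x : K) :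
    (∑ i ∈ s, c i • D i) x = ∑ i ∈ s, c i * D i x := by
  classical
  induction s using Finset.induction_on with
  | empty => simp
  | insert a s ha ih =>
    rw [Finset.sum_insert ha, Finset.sum_insert ha, Derivation.add_apply, Derivation.smul_apply,
      ih, smul_eq_mul]

/-- Derivations with arbitrary values at the coordinates of generic points. -/
theorem exists_der_val (hP : AlgebraicIndependent ℚ (fun ij : Fin n × Fin 2 => P ij.1 ij.2))
    (c : Fin n → Fin 2 → K) :
    ∃ D : Derivation ℚ K K, ∀ i b, D (P i b) = c i b := by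
  classical
  choose D hD using fun ij => exists_der (fun ij : Fin n × Fin 2 => P ij.1 ij.2) hP ij
  refine ⟨∑ ij : Fin n × Fin 2, c ij.1 ij.2 • D ij, fun i b => ?_⟩
  rw [der_sum, Finset.sum_eq_single (i, b)]
  · have := (hD (i, b) (i, b)).1 rfl
    simp only at this
    rw [this, mul_one]
  · intro x _ hx
    have := (hD x (i, b)).2 hx
    simp only at this
    rw [this, mul_zero]
  · intro h
    exact absurd (Finset.mem_univ _) h

/-- The value only depends on the terms of degree `k`. -/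
theorem pr_hc (φ : Polynomial K) (F : MvPolynomial (Fin 2) K) :
    pr k φ (homogeneousComponent k F) = pr k φ F := by
  unfold pr
  refine Finset.sum_congr rfl fun b hb => ?_
  rw [coeff_homogeneousComponent, ex_degree, if_pos]
  have := Finset.mem_range.1 hb
  omega

theorem update_LL (j : ℕ) : Function.update (Function.update w q j) q k =
    Function.update w q k := Function.update_idem _ _ _

/-- The annihilator grows. -/
theorem sh_II_le (hP : AlgebraicIndependent ℚ (fun ij : Fin n × Fin 2 => P ij.1 ij.2)) :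
    sh (II P d q w k) ≤ II P d q w (k + 1) := by
  classical
  have key : ∀ a : Fin 2, ∀ φ ∈ II P d q w k, ∀ f ∈ LL P d q w (k + 1),
      pr k φ (pderiv a (tau (P q) f)) = 0 := by
    intro a φ hφ f hf
    obtain ⟨D, hD⟩ := exists_der_val hP (fun i b => if i = q ∧ b = a then 1 else 0)
    have h1 := move (w := Function.update w q (k + 1)) (m := k) (k := q)
      (Function.update_self _ _ _) D hD hf
    rw [update_LL] at h1
    have h2 := hφ.2 _ h1.1
    rw [← pr_hc, h1.2, pr_neg', neg_eq_zero, ← hc_pderiv, pr_hc] at h2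
    exact h2
  refine sh_le ?_ ?_
  · intro φ hφ
    refine ⟨Polynomial.degreeLT_mono (Nat.le_succ _) hφ.1, fun f hf => ?_⟩
    rw [← pr_pd0 k hφ.1]
    exact key 0 φ hφ f hf
  · intro φ hφ
    refine ⟨?_, fun f hf => ?_⟩
    · rw [mem_degreeLT, Polynomial.degree_lt_iff_coeff_zero]
      intro m hm
      obtain ⟨m', rfl⟩ : ∃ m', m = m' + 1 := ⟨m - 1, by omega⟩
      rw [Polynomial.coeff_X_mul]
      have := hφ.1
      rw [mem_degreeLT, Polynomial.degree_lt_iff_coeff_zero] at this
      exact this m' (by omega)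
    · rw [← pr_pd1]
      exact key 1 φ hφ f hf

theorem tau_pderiv0 (p : Fin 2 → K) (f : MvPolynomial (Fin 3) K) :
    tau p (pderiv 0 f) = pderiv 0 (tau p f) := by
  induction f using MvPolynomial.induction_on with
  | C c => simp
  | add f g hf hg => simp only [map_add, hf, hg]
  | mul_X f i hf =>
    rw [pderiv_mul, map_add, map_mul, map_mul, map_mul, pderiv_mul, hf]
    congr 2
    fin_cases i
    · change tau p (pderiv 0 (X 0)) = pderiv 0 (tau p (X 0))
      rw [tau_X0, pderiv_X_self, map_one, map_add, pderiv_X_self, pderiv_C, add_zero]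
    · change tau p (pderiv 0 (X 1)) = pderiv 0 (tau p (X 1))
      rw [tau_X1, pderiv_X_of_ne (by decide), map_zero, map_add, pderiv_X_of_ne (by decide),
        pderiv_C, add_zero]
    · change tau p (pderiv 0 (X 2)) = pderiv 0 (tau p (X 2))
      rw [tau_X2, pderiv_X_of_ne (by decide), map_zero, pderiv_one]

theorem tau_pderiv1 (p : Fin 2 → K) (f : MvPolynomial (Fin 3) K) :
    tau p (pderiv 1 f) = pderiv 1 (tau p f) := by
  induction f using MvPolynomial.induction_on with
  | C c => simp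
  | add f g hf hg => simp only [map_add, hf, hg]
  | mul_X f i hf =>
    rw [pderiv_mul, map_add, map_mul, map_mul, map_mul, pderiv_mul, hf]
    congr 2
    fin_cases i
    · change tau p (pderiv 1 (X 0)) = pderiv 1 (tau p (X 0))
      rw [tau_X0, pderiv_X_of_ne (by decide), map_zero, map_add, pderiv_X_of_ne (by decide),
        pderiv_C, add_zero]
    · change tau p (pderiv 1 (X 1)) = pderiv 1 (tau p (X 1))
      rw [tau_X1, pderiv_X_self, map_one, map_add, pderiv_X_self, pderiv_C, add_zero]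
    · change tau p (pderiv 1 (X 2)) = pderiv 1 (tau p (X 2))
      rw [tau_X2, pderiv_X_of_ne (by decide), map_zero, pderiv_one]

theorem mem_LL {f : MvPolynomial (Fin 3) K} :
    f ∈ LL P d q w k ↔ f.IsHomogeneous d ∧
      (∀ s : Fin 2 →₀ ℕ, s.degree < k → coeff s (tau (P q) f) = 0) ∧
      ∀ i, i ≠ q → ∀ s : Fin 2 →₀ ℕ, s.degree < w i → coeff s (tau (P i) f) = 0 := by
  unfold LL
  rw [mem_forms']
  refine and_congr_right fun _ => ?_
  constructor
  · intro h
    refine ⟨fun s hs => h q s (by rwa [Function.update_self]), fun i hi s hs => h i s ?_⟩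
    rwa [Function.update_of_ne hi]
  · rintro ⟨h1, h2⟩ i s hs
    by_cases hi : i = q
    · subst hi
      rw [Function.update_self] at hs
      exact h1 s hs
    · rw [Function.update_of_ne hi] at hs
      exact h2 i hi s hs

/-- An operator on forms which acts at all the points by terms of the same degree preserves the
multiplicities. -/
theorem op_LL {T : MvPolynomial (Fin 3) K → MvPolynomial (Fin 3) K}
    {R : MvPolynomial (Fin 2) K → MvPolynomial (Fin 2) K}
    (hT : ∀ f, f.IsHomogeneous d → (T f).IsHomogeneous d)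
    (hR : ∀ (F : MvPolynomial (Fin 2) K) (m : ℕ),
      (∀ s : Fin 2 →₀ ℕ, s.degree < m → coeff s F = 0) →
      ∀ s : Fin 2 →₀ ℕ, s.degree < m → coeff s (R F) = 0)
    (hq : ∀ f, tau (P q) (T f) = R (tau (P q) f))
    (hi : ∀ i, i ≠ q → w i ≠ 0 → ∀ f, tau (P i) (T f) = R (tau (P i) f))
    {f : MvPolynomial (Fin 3) K} (hf : f ∈ LL P d q w k) : T f ∈ LL P d q w k := by
  rw [mem_LL] at hf ⊢
  refine ⟨hT f hf.1, fun s hs => ?_, fun i hiq s hs => ?_⟩
  · rw [hq]
    exact hR _ k hf.2.1 s hs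
  · rw [hi i hiq (by omega)]
    exact hR _ (w i) (hf.2.2 i hiq) s hs

/-- Derivations which kill the coordinates of the points act on the annihilator. -/
theorem dP_mem_II {D : Derivation ℚ K K} (hq : ∀ b, D (P q b) = 0)
    (hi : ∀ i, i ≠ q → w i ≠ 0 → ∀ b, D (P i b) = 0) {φ : Polynomial K}
    (hφ : φ ∈ II P d q w k) : dP D φ ∈ II P d q w k := by
  have hta : ∀ i, (∀ b, D (P i b) = 0) → ∀ f, tau (P i) (dG D f) = dG D (tau (P i) f) := by
    intro i h f
    rw [tau_dG, Finset.sum_eq_zero, sub_zero]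
    intro b _
    rw [h b, C_0, zero_mul]
  refine ⟨dP_mem_degreeLT D hφ.1, fun f hf => ?_⟩
  have h1 : dG D f ∈ LL P d q w k := by
    refine op_LL (T := dG D) (R := dG D) (fun f hf => dG_homog D hf) ?_ (hta q hq)
      (fun i h1 h2 => hta i (hi i h1 h2)) hf
    intro F m h s hs
    rw [coeff_dG, h s hs, map_zero]
  have h2 := pr_der D k φ (tau (P q) f)
  rw [hφ.2 f hf, map_zero, ← hta q hq, hφ.2 _ h1, add_zero] at h2
  exact h2.symm

theorem vanish_X1_pd0 {F : MvPolynomial (Fin 2) K} {m : ℕ}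
    (h : ∀ s : Fin 2 →₀ ℕ, s.degree < m → coeff s F = 0) :
    ∀ s : Fin 2 →₀ ℕ, s.degree < m → coeff s (X 1 * pderiv 0 F) = 0 := by
  intro s hs
  rw [ex_surj s] at hs ⊢
  rw [ex_degree] at hs
  rcases Nat.eq_zero_or_pos (s 1) with h1 | h1
  · rw [h1, coeff_X1_zero]
  · obtain ⟨b, hb⟩ : ∃ b, s 1 = b + 1 := ⟨s 1 - 1, by omega⟩
    rw [hb, coeff_X1, coeff_pd0, h, mul_zero]
    rw [ex_degree]
    omega

theorem vanish_X0_pd1 {F : MvPolynomial (Fin 2) K} {m : ℕ}
    (h : ∀ s : Fin 2 →₀ ℕ, s.degree < m → coeff s F = 0) :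
    ∀ s : Fin 2 →₀ ℕ, s.degree < m → coeff s (X 0 * pderiv 1 F) = 0 := by
  intro s hs
  rw [ex_surj s] at hs ⊢
  rw [ex_degree] at hs
  rcases Nat.eq_zero_or_pos (s 0) with h1 | h1
  · rw [h1, coeff_X0_zero]
  · obtain ⟨b, hb⟩ : ∃ b, s 0 = b + 1 := ⟨s 0 - 1, by omega⟩
    rw [hb, coeff_X0, coeff_pd1, h, mul_zero]
    rw [ex_degree]
    omega

theorem homog_shear {f l : MvPolynomial (Fin 3) K} (hf : f.IsHomogeneous d) (hl : l.IsHomogeneous 1)
    (a : Fin 3) : (l * pderiv a f).IsHomogeneous d := by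
  rcases Nat.eq_zero_or_pos d with h0 | h0
  · subst h0
    have h1 : f = C (coeff 0 f) :=
      totalDegree_eq_zero_iff_eq_C.1 ((totalDegree_zero_iff_isHomogeneous _).2 hf)
    rw [h1, pderiv_C, mul_zero]
    exact isHomogeneous_zero _ _ _
  · have h1 := hl.mul (hf.pderiv (i := a))
    have h2 : 1 + (d - 1) = d := by omega
    rwa [h2] at h1

theorem homog_lin (a : Fin 3) (c : K) :
    (X a - C c * X 2 : MvPolynomial (Fin 3) K).IsHomogeneous 1 :=
  (isHomogeneous_X K a).sub ((isHomogeneous_X K 2).C_mul _)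

/-- The first shear acts on the annihilator. -/
theorem shear0_mem_II {D : Derivation ℚ K K} (hq : ∀ b, D (P q b) = 0)
    (hi0 : ∀ i, i ≠ q → w i ≠ 0 → D (P i 0) = P i 1 - P q 1)
    (hi1 : ∀ i, i ≠ q → w i ≠ 0 → D (P i 1) = 0) {φ : Polynomial K}
    (hφ : φ ∈ II P d q w k) : dP D φ - Polynomial.derivative φ ∈ II P d q w k := by
  let T : MvPolynomial (Fin 3) K → MvPolynomial (Fin 3) K := fun f =>
    dG D f + (X 1 - C (P q 1) * X 2) * pderiv 0 f
  let R : MvPolynomial (Fin 2) K → MvPolynomial (Fin 2) K := fun F =>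
    dG D F + X 1 * pderiv 0 F
  have hT : ∀ i, D (P i 0) = P i 1 - P q 1 → D (P i 1) = 0 → ∀ f, tau (P i) (T f) =
      R (tau (P i) f) := by
    intro i h0 h1 f
    change tau (P i) (dG D f + (X 1 - C (P q 1) * X 2) * pderiv 0 f) =
      dG D (tau (P i) f) + X 1 * pderiv 0 (tau (P i) f)
    rw [map_add, map_mul, map_sub, map_mul, tau_X1, tau_X2, tau_C, tau_dG, Fin.sum_univ_two, h0,
      h1, tau_pderiv0, C_0, C_sub]
    ring
  have hTq : ∀ f, tau (P q) (T f) = R (tau (P q) f) :=
    hT q (by rw [hq, sub_self]) (hq 1)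
  refine ⟨Submodule.sub_mem _ (dP_mem_degreeLT D hφ.1) ?_, fun f hf => ?_⟩
  · have h1 := hφ.1
    rw [mem_degreeLT, Polynomial.degree_lt_iff_coeff_zero] at h1 ⊢
    intro m hm
    rw [Polynomial.coeff_derivative, h1 (m + 1) (by omega), zero_mul]
  have h1 : T f ∈ LL P d q w k := by
    refine op_LL (T := T) (R := R) (fun f hf => ?_) ?_ hTq
      (fun i h1 h2 => hT i (hi0 i h1 h2) (hi1 i h1 h2)) hf
    · exact (dG_homog D hf).add (homog_shear hf (homog_lin 1 _) 0)
    · intro F m h s hs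
      change coeff s (dG D F + X 1 * pderiv 0 F) = 0
      rw [coeff_add, coeff_dG, h s hs, map_zero, vanish_X1_pd0 h s hs, add_zero]
  have h2 := pr_der D k φ (tau (P q) f)
  have h3 := hφ.2 _ h1
  rw [hTq] at h3
  change pr k φ (dG D (tau (P q) f) + X 1 * pderiv 0 (tau (P q) f)) = 0 at h3
  rw [pr_add', pr_E k hφ.1] at h3
  rw [hφ.2 f hf, map_zero] at h2
  rw [pr_sub]
  linear_combination -h2 - h3

/-- The second shear acts on the annihilator. -/
theorem shear1_mem_II {D : Derivation ℚ K K} (hq : ∀ b, D (P q b) = 0)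
    (hi0 : ∀ i, i ≠ q → w i ≠ 0 → D (P i 0) = 0)
    (hi1 : ∀ i, i ≠ q → w i ≠ 0 → D (P i 1) = P i 0 - P q 0) {φ : Polynomial K}
    (hφ : φ ∈ II P d q w k) : dP D φ - ((k : K) • (Polynomial.X * φ) -
      Polynomial.X * (Polynomial.X * Polynomial.derivative φ)) ∈ II P d q w k := by
  let T : MvPolynomial (Fin 3) K → MvPolynomial (Fin 3) K := fun f =>
    dG D f + (X 0 - C (P q 0) * X 2) * pderiv 1 f
  let R : MvPolynomial (Fin 2) K → MvPolynomial (Fin 2) K := fun F =>
    dG D F + X 0 * pderiv 1 F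
  have hT : ∀ i, D (P i 0) = 0 → D (P i 1) = P i 0 - P q 0 → ∀ f, tau (P i) (T f) =
      R (tau (P i) f) := by
    intro i h0 h1 f
    change tau (P i) (dG D f + (X 0 - C (P q 0) * X 2) * pderiv 1 f) =
      dG D (tau (P i) f) + X 0 * pderiv 1 (tau (P i) f)
    rw [map_add, map_mul, map_sub, map_mul, tau_X0, tau_X2, tau_C, tau_dG, Fin.sum_univ_two, h0,
      h1, tau_pderiv1, C_0, C_sub]
    ring
  have hTq : ∀ f, tau (P q) (T f) = R (tau (P q) f) :=
    hT q (hq 0) (by rw [hq, sub_self])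
  refine ⟨Submodule.sub_mem _ (dP_mem_degreeLT D hφ.1) ?_, fun f hf => ?_⟩
  · have h1 := hφ.1
    rw [mem_degreeLT, Polynomial.degree_lt_iff_coeff_zero] at h1 ⊢
    intro m hm
    obtain ⟨m, rfl⟩ : ∃ m', m = m' + 1 := ⟨m - 1, by omega⟩
    rw [Polynomial.coeff_sub, Polynomial.coeff_smul, Polynomial.coeff_X_mul,
      Polynomial.coeff_X_mul, smul_eq_mul]
    rcases Nat.lt_or_ge m (k + 1) with h2 | h2
    · have hmk : m = k := by omega
      subst hmk
      rcases Nat.eq_zero_or_pos m with h3 | h3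
      · subst h3
        rw [Polynomial.mul_coeff_zero, Polynomial.coeff_X_zero, zero_mul, sub_zero]
        push_cast
        rw [zero_mul]
      · obtain ⟨c, rfl⟩ : ∃ c, m = c + 1 := ⟨m - 1, by omega⟩
        rw [Polynomial.coeff_X_mul, Polynomial.coeff_derivative]
        push_cast
        ring
    · rw [h1 m h2, mul_zero, zero_sub, neg_eq_zero]
      obtain ⟨c, rfl⟩ : ∃ c, m = c + 1 := ⟨m - 1, by omega⟩
      rw [Polynomial.coeff_X_mul, Polynomial.coeff_derivative, h1 _ h2, zero_mul]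
  have h1 : T f ∈ LL P d q w k := by
    refine op_LL (T := T) (R := R) (fun f hf => ?_) ?_ hTq
      (fun i h1 h2 => hT i (hi0 i h1 h2) (hi1 i h1 h2)) hf
    · exact (dG_homog D hf).add (homog_shear hf (homog_lin 0 _) 1)
    · intro F m h s hs
      change coeff s (dG D F + X 0 * pderiv 1 F) = 0
      rw [coeff_add, coeff_dG, h s hs, map_zero, vanish_X0_pd1 h s hs, add_zero]
  have h2 := pr_der D k φ (tau (P q) f)
  have h3 := hφ.2 _ h1
  rw [hTq] at h3
  change pr k φ (dG D (tau (P q) f) + X 0 * pderiv 1 (tau (P q) f)) = 0 at h3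
  rw [pr_add', pr_F k φ] at h3
  rw [hφ.2 f hf, map_zero] at h2
  rw [pr_sub k (dP D φ)]
  linear_combination -h2 - h3

end Pool.Agent.K4H28.SP
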