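import Pool.Agent.K4H28.SP.Key
import Pool.Agent.K4H28.SP.Num
import Pool.Agent.H248R6.Dim

set_option autoImplicit false
set_option linter.unusedSectionVars false

/-!
# The bounds for generic points
-/

namespace Pool.Agent.K4H28.SP

open MvPolynomial Module Pool.Agent.H248R5 Pool.Agent.H248R6
open Polynomial (degreeLT mem_degreeLT degreeLTEquiv)

variable {K : Type} [Field K] [CharZero K] {n : ℕ}
variable {P : Fin n → Fin 2 → K} {d : ℕ} {q o : Fin n} {w w' : Fin n → ℕ} {k : ℕ}

theorem LL_big (hk : d + 1 ≤ k) : LL P d q w k = ⊥ := by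
  rw [eq_bot_iff]
  intro f hf
  rw [mem_LL] at hf
  obtain ⟨h1, h2, -⟩ := hf
  have hH : (H932R2.tr (P q 0) (P q 1) f).IsHomogeneous d := H932R2.tr_homog h1
  have h3 : H932R2.tr (P q 0) (P q 1) f = 0 := by
    ext α
    rw [coeff_zero]
    by_contra hne
    have h4 := coeff_dh hH hne
    rw [dh_tr] at h4
    apply hne
    rw [← h4]
    refine h2 _ ?_
    have h5 := H932R2.sum_eq_of_homog hH hne
    rw [Finsupp.degree_eq_sum, Fin.sum_univ_two]
    simp
    omega
  have h4 := congrArg (H932R2.tr (-(P q 0)) (-(P q 1))) h3
  rw [H932R2.tr_tr, map_zero] at h4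
  rw [Submodule.mem_bot]
  exact h4

theorem dim_inst : Dim (fun k => finrank K (II P d q w k)) (fun k => finrank K (LL P d q w k))
    (d + 1) where
  eq := fun k => finrank_II
  zero := fun k hk => by
    rw [LL_big hk, finrank_bot]

theorem sw_self (w : Fin n → ℕ) (o : Fin n) : sw w o o = w := by
  funext i
  unfold sw
  rw [Equiv.swap_self, Equiv.refl_apply]

theorem up_II (hP : AlgebraicIndependent ℚ (fun ij : Fin n × Fin 2 => P ij.1 ij.2)) (k : ℕ)
    (h : 1 ≤ finrank K (II P d q w k)) :
    finrank K (II P d q w k) + 1 ≤ finrank K (II P d q w (k + 1)) := by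
  have h1 : II P d q w k ≠ ⊥ := by
    intro h1
    rw [h1, finrank_bot] at h
    omega
  exact (sh_ge h1).trans (Submodule.finrank_mono (sh_II_le hP))

theorem num_inst (hP : AlgebraicIndependent ℚ (fun ij : Fin n × Fin 2 => P ij.1 ij.2))
    (ho : o ≠ q) (hwo : w o = 0) (hw' : Above w w' q o) :
    Num (fun k => finrank K (II P d q w k)) (fun k => finrank K (II P d q w' k)) where
  up := fun k h => up_II hP k h
  le := fun k => finrank_II_le
  le' := fun k => finrank_II_le
  mono := fun k => Submodule.finrank_mono (II_mono fun j hj => by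
    have := hw' o ho j hj
    rwa [sw_self] at this)
  str := fun v m hv h1 h2 j hj => stretch hP ho hwo hw' hv h1 h2 j hj
  drop := fun l h1 h2 => Pool.Agent.K4H28.SP.drop hP ho hwo hw' h1 h2

theorem above_update {M : ℕ} (hwo : w o = 0) (hM : ∀ i, w i ≤ M) :
    Above w (Function.update w o M) q o := by
  intro j hj i hi
  unfold sw
  by_cases h1 : i = o
  · subst h1
    rw [Function.update_self]
    exact hM _
  · rw [Function.update_of_ne h1]
    by_cases h2 : i = j
    · subst h2
      rw [Equiv.swap_apply_right, hwo]
      exact Nat.zero_le _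
    · rw [Equiv.swap_apply_of_ne_of_ne h1 h2]

theorem LL_move (hP : AlgebraicIndependent ℚ (fun ij : Fin n × Fin 2 => P ij.1 ij.2))
    (ho : o ≠ q) (hwo : w o = 0) (k : ℕ) :
    finrank K (LL P d q w k) = finrank K (LL P d q (Function.update w o k) 0) := by
  unfold LL
  rw [← finrank_perm hP (Function.update w q k) d (Equiv.swap q o)]
  have h1 : (fun i => Function.update w q k (Equiv.swap q o i)) =
      Function.update (Function.update w o k) q 0 := by
    funext i
    by_cases h2 : i = q
    · subst h2
      rw [Equiv.swap_apply_left, Function.update_of_ne ho, Function.update_self, hwo]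
    · rw [Function.update_of_ne h2]
      by_cases h3 : i = o
      · subst h3
        rw [Equiv.swap_apply_right, Function.update_self, Function.update_self]
      · rw [Equiv.swap_apply_of_ne_of_ne h2 h3, Function.update_of_ne h2,
          Function.update_of_ne h3]
  rw [h1]

/-- **Theorem G.** -/
theorem thmG (hP : AlgebraicIndependent ℚ (fun ij : Fin n × Fin 2 => P ij.1 ij.2))
    (ho : o ≠ q) (hwo : w o = 0) {μ r : ℕ} (hM : ∀ i, w i ≤ μ + 1 + r)
    (h1 : 1 ≤ finrank K (II P d q w μ)) :
    finrank K (LL P d q w (μ + 1)) ≤ (μ + r) * μ :=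
  (num_inst (w' := Function.update w o (μ + 1 + r)) hP ho hwo (above_update hwo hM)).bound
    dim_inst dim_inst h1 r (LL_move hP ho hwo _)

/-- The multiplicities on a set of points. -/
def res (m : Fin n → ℕ) (S : Finset (Fin n)) : Fin n → ℕ := fun i => if i ∈ S then m i else 0

variable {m : Fin n → ℕ} {S : Finset (Fin n)} {a : Fin n}

theorem res_not (h : a ∉ S) : res m S a = 0 := if_neg h

theorem res_insert (h : a ∉ S) : res m (insert a S) = Function.update (res m S) a (m a) := by
  funext i
  unfold res
  by_cases h1 : i = a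
  · subst h1
    rw [if_pos (Finset.mem_insert_self _ _), Function.update_self]
  · rw [Function.update_of_ne h1]
    by_cases h2 : i ∈ S
    · rw [if_pos h2, if_pos (Finset.mem_insert_of_mem h2)]
    · rw [if_neg h2, if_neg]
      rw [Finset.mem_insert]
      rintro (h | h)
      · exact h1 h
      · exact h2 h

theorem res_le {B : ℕ} (h : ∀ i ∈ S, m i ≤ B) (i : Fin n) : res m S i ≤ B := by
  unfold res
  split_ifs with h1
  · exact h i h1
  · exact Nat.zero_le _

theorem LL_res (hq : q ∉ S) : LL P d q (res m S) 0 = forms (res m S) P d := by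
  unfold LL
  have h1 : Function.update (res m S) q 0 = res m S := by
    funext i
    by_cases h2 : i = q
    · subst h2
      rw [Function.update_self, res_not hq]
    · rw [Function.update_of_ne h2]
  rw [h1]

/-- One more point. -/
theorem LL_insert (hP : AlgebraicIndependent ℚ (fun ij : Fin n × Fin 2 => P ij.1 ij.2))
    (hq : q ∉ S) (ha : a ∉ S) (haq : a ≠ q) :
    finrank K (LL P d q (res m S) (m a)) = finrank K (forms (res m (insert a S)) P d) := by
  rw [LL_move hP haq (res_not ha), ← res_insert ha, LL_res]
  rw [Finset.mem_insert]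
  rintro (h | h)
  · exact haq h.symm
  · exact hq h

theorem sum_insert_eq (hP : AlgebraicIndependent ℚ (fun ij : Fin n × Fin 2 => P ij.1 ij.2))
    (hq : q ∉ S) (ha : a ∉ S) (haq : a ≠ q) :
    finrank K (forms (res m S) P d) + ∑ j ∈ Finset.range (m a), finrank K (II P d q (res m S) j) =
      finrank K (forms (res m (insert a S)) P d) + (m a + 1).choose 2 := by
  have h1 := (dim_inst (P := P) (d := d) (q := q) (w := res m S)).sum (m a)
  rwa [LL_insert hP hq ha haq, LL_res hq] at h1

theorem forms_empty : finrank K (forms (res m (∅ : Finset (Fin n))) P d) = (d + 2).choose 2 := by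
  have h1 : forms (res m (∅ : Finset (Fin n))) P d = homogeneousSubmodule (Fin 3) K d := by
    ext f
    rw [mem_forms', mem_homogeneousSubmodule]
    refine ⟨fun h => h.1, fun h => ⟨h, fun i s hs => ?_⟩⟩
    rw [res_not (Finset.notMem_empty i)] at hs
    omega
  rw [h1, finrank_homog]

/-- The first point. -/
theorem first (hP : AlgebraicIndependent ℚ (fun ij : Fin n × Fin 2 => P ij.1 ij.2))
    (haq : a ≠ q) :
    finrank K (forms (res m {a}) P d) + (m a + 1).choose 2 = (d + 2).choose 2 ∨
      finrank K (forms (res m {a}) P d) = 0 := by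
  have e1 : ({a} : Finset (Fin n)) = insert a ∅ := rfl
  rcases Nat.lt_or_ge d (m a) with h1 | h1
  · right
    rw [e1, ← LL_insert hP (Finset.notMem_empty q) (Finset.notMem_empty a) haq,
      LL_big (by omega), finrank_bot]
  · left
    have h2 := (dim_inst (P := P) (d := d) (q := q) (w := res m ∅)).sum (d + 1)
    rw [LL_res (Finset.notMem_empty q), forms_empty, LL_big le_rfl, finrank_bot] at h2
    have h3 := sum_insert_eq (m := m) (d := d) hP (Finset.notMem_empty q) (Finset.notMem_empty a)
      haq
    rw [forms_empty, ← e1] at h3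
    have h4 : ∑ j ∈ Finset.range (m a), finrank K (II P d q (res m ∅) j) ≤
        ∑ j ∈ Finset.range (d + 1), finrank K (II P d q (res m ∅) j) :=
      Finset.sum_le_sum_of_subset (Finset.range_mono (by omega))
    have h5 : (d + 1 + 1).choose 2 = (d + 2).choose 2 := rfl
    omega

/-- **The upper bound**, for generic points. -/
theorem upper_gen (hP : AlgebraicIndependent ℚ (fun ij : Fin n × Fin 2 => P ij.1 ij.2))
    {T : Finset (Fin n)} (hqT : q ∉ T) {A b : ℕ} (hA : ∀ j ∈ T, m j ≤ A) (hb : ∀ j, j ∉ T → m j ≤ b)
    (hba : b ≤ A)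
    (base : finrank K (forms (res m T) P d) + ∑ i ∈ T, (m i + 1).choose 2 = (d + 2).choose 2 ∨
      finrank K (forms (res m T) P d) ≤ (A - 1) * (b - 1))
    (S : Finset (Fin n)) : Disjoint S T → q ∉ S →
    (finrank K (forms (res m (S ∪ T)) P d) +
        ∑ i ∈ S ∪ T, (m i + 1).choose 2 = (d + 2).choose 2) ∨
      finrank K (forms (res m (S ∪ T)) P d) ≤ (A - 1) * (b - 1) := by
  classical
  induction S using Finset.induction_on with
  | empty =>
    intro _ _
    rw [Finset.empty_union]
    exact base
  | insert a S ha ih =>
    intro h1 h2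
    have hST : Disjoint S T := Finset.disjoint_of_subset_left (Finset.subset_insert a S) h1
    have hqS : q ∉ S := fun h => h2 (Finset.mem_insert_of_mem h)
    have haT : a ∉ T := Finset.disjoint_left.1 h1 (Finset.mem_insert_self _ _)
    have haq : a ≠ q := fun h => h2 (h ▸ Finset.mem_insert_self _ _)
    have haS : a ∉ S ∪ T := by
      rw [Finset.mem_union]
      rintro (h | h)
      · exact ha h
      · exact haT h
    have hqS' : q ∉ S ∪ T := by
      rw [Finset.mem_union]
      rintro (h | h)
      · exact hqS h
      · exact hqT h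
    rw [Finset.insert_union, Finset.sum_insert haS]
    have h3 := sum_insert_eq (m := m) (d := d) hP hqS' haS haq
    have h4 := LL_insert (m := m) (d := d) hP hqS' haS haq
    have h5 : finrank K (forms (res m (insert a (S ∪ T))) P d) ≤
        finrank K (forms (res m (S ∪ T)) P d) := by
      refine Submodule.finrank_mono (forms_le fun i => ?_)
      rw [res_insert haS]
      by_cases hi : i = a
      · subst hi
        rw [res_not haS]
        exact Nat.zero_le _
      · rw [Function.update_of_ne hi]
    rcases ih hST hqS with h6 | h6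
    · by_cases h7 : ∑ j ∈ Finset.range (m a), finrank K (II P d q (res m (S ∪ T)) j) = 0
      · left
        omega
      · right
        have h8 : 0 < m a := by
          by_contra hcon
          apply h7
          have : m a = 0 := by omega
          rw [this, Finset.range_zero, Finset.sum_empty]
        obtain ⟨μ, hμ⟩ : ∃ μ, m a = μ + 1 := ⟨m a - 1, by omega⟩
        have h9 : 1 ≤ finrank K (II P d q (res m (S ∪ T)) μ) := by
          by_contra hcon
          apply h7
          refine Finset.sum_eq_zero fun j hj => ?_
          have hj' : j ≤ μ := by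
            have := Finset.mem_range.1 hj
            omega
          by_contra hne
          have h10 : ∀ r, 1 ≤ finrank K (II P d q (res m (S ∪ T)) (j + r)) := by
            intro r
            induction r with
            | zero => exact Nat.one_le_iff_ne_zero.2 hne
            | succ r ihr =>
              have := up_II hP _ ihr
              have h11 : j + (r + 1) = j + r + 1 := rfl
              rw [h11]
              omega
          have h11 := h10 (μ - j)
          have h12 : j + (μ - j) = μ := by omega
          rw [h12] at h11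
          exact hcon h11
        have hab : m a ≤ b := hb a haT
        obtain ⟨r, hr⟩ : ∃ r, A = μ + 1 + r := ⟨A - (μ + 1), by omega⟩
        have h10 := thmG (o := a) (r := r) hP haq (res_not haS) (res_le fun i _ => by
          rw [← hr]
          by_cases hi : i ∈ T
          · exact hA i hi
          · exact (hb i hi).trans hba) h9
        rw [← hμ, h4] at h10
        refine h10.trans ?_
        refine Nat.mul_le_mul ?_ ?_
        · omega
        · omega
    · right
      exact h5.trans h6

/-- The system which is not empty for one more point. -/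
theorem notfull (hP : AlgebraicIndependent ℚ (fun ij : Fin n × Fin 2 => P ij.1 ij.2)) {M : ℕ}
    (hM : 1 ≤ finrank K (LL P d q w M)) {j : ℕ} (hj : j < M) :
    finrank K (II P d q w j) ≤ j := by
  by_contra hcon
  have D := dim_inst (P := P) (d := d) (q := q) (w := w)
  have h1 : ∀ r, finrank K (II P d q w (j + r)) = j + r + 1 := by
    intro r
    induction r with
    | zero =>
      have := finrank_II_le (P := P) (d := d) (q := q) (w := w) (k := j)
      simp only [Nat.add_zero]
      omega
    | succ r ih =>
      have h2 := up_II (d := d) (q := q) (w := w) hP (j + r) (by omega)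
      have h3 := finrank_II_le (P := P) (d := d) (q := q) (w := w) (k := j + r + 1)
      have h4 : j + (r + 1) = j + r + 1 := rfl
      rw [h4]
      omega
  have h2 : ∀ r, finrank K (LL P d q w j) = finrank K (LL P d q w (j + r)) := by
    intro r
    induction r with
    | zero => rfl
    | succ r ih =>
      have h3 := finrank_II (P := P) (d := d) (q := q) (w := w) (k := j + r)
      rw [h1 r] at h3
      have h4 : j + (r + 1) = j + r + 1 := rfl
      rw [h4]
      omega
  have h3 := h2 (d + 1)
  rw [LL_big (k := j + (d + 1)) (by omega), finrank_bot] at h3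
  obtain ⟨r, hr⟩ : ∃ r, M = j + r := ⟨M - j, by omega⟩
  have h4 := D.anti (fun k => finrank_II_le) j r
  rw [← hr] at h4
  omega

/-- The sum of `h⁰` and `h¹` is small as soon as `h¹ ≠ 0`. -/
theorem small_gen (hP : AlgebraicIndependent ℚ (fun ij : Fin n × Fin 2 => P ij.1 ij.2))
    (S : Finset (Fin n)) : q ∉ S → ∀ B, (∀ i ∈ S, m i ≤ B) → ∀ M, B ≤ M →
      1 ≤ finrank K (LL P d q (res m S) M) →
      (finrank K (forms (res m S) P d) + ∑ i ∈ S, (m i + 1).choose 2 = (d + 2).choose 2) ∨
      2 * finrank K (forms (res m S) P d) + ∑ i ∈ S, (m i + 1).choose 2 + B + 1 ≤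
        (d + 2).choose 2 + B ^ 2 := by
  classical
  induction S using Finset.induction_on_max_value m with
  | empty =>
    intro _ B _ M _ _
    left
    rw [forms_empty, Finset.sum_empty, Nat.add_zero]
  | insert a S ha hmax ih =>
    intro hq B hB M hBM hM
    have hqS : q ∉ S := fun h => hq (Finset.mem_insert_of_mem h)
    have haq : a ≠ q := fun h => hq (h ▸ Finset.mem_insert_self _ _)
    have haB : m a ≤ B := hB a (Finset.mem_insert_self _ _)
    have e3 := sum_insert_eq (m := m) (d := d) hP hqS ha haq
    have e4 := LL_insert (m := m) (d := d) hP hqS ha haq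
    rw [Finset.sum_insert ha]
    -- the system for `S` and one more point of multiplicity `m a` is not empty
    have h1 : 1 ≤ finrank K (LL P d q (res m S) (m a)) := by
      rw [e4]
      refine hM.trans (Submodule.finrank_mono ?_)
      unfold LL
      refine forms_le fun i => ?_
      by_cases hi : i = q
      · subst hi
        rw [res_not hq]
        exact Nat.zero_le _
      · rw [Function.update_of_ne hi]
    have h2 := ih hqS (m a) hmax (m a) le_rfl h1
    set T := ∑ j ∈ Finset.range (m a), finrank K (II P d q (res m S) j) with hT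
    have hup : res m (insert a S) = Function.update (res m S) a (m a) := res_insert ha
    have hN : Num (fun k => finrank K (II P d q (res m S) k))
        (fun k => finrank K (II P d q (res m (insert a S)) k)) := by
      rw [hup]
      exact num_inst hP haq (res_not ha) (above_update (res_not ha) (res_le hmax))
    rcases Nat.eq_zero_or_pos (m a) with h0 | h0
    · -- the multiplicity is zero
      have hT0 : T = 0 := by rw [hT, h0, Finset.range_zero, Finset.sum_empty]
      rw [hT0, h0] at e3
      rw [h0] at h2
      rw [h0]
      have c1 : (0 + 1).choose 2 = 0 := rfl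
      rw [c1] at e3 ⊢
      rcases h2 with h2 | h2
      · left
        omega
      · right
        have h3 : B ≤ B ^ 2 := by nlinarith
        have h4 : (0 : ℕ) ^ 2 = 0 := rfl
        rw [h4] at h2
        omega
    have hMl : finrank K (II P d q (res m (insert a S)) (M - 1)) ≤ M - 1 :=
      notfull hP hM (by omega)
    have hBB : (m a) ^ 2 + B ≤ B ^ 2 + m a := by
      obtain ⟨r, rfl⟩ := Nat.exists_eq_add_of_le haB
      nlinarith
    rcases h2 with h2 | h2
    · by_cases h6 : T = 0
      · left
        omega
      · right
        have h7 := hN.first_fail (l := M - 1) (m := m a) hMl (by omega) h6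
        obtain ⟨f, e, hf1, hfe, hf2⟩ := h7
        have h8 : finrank K (forms (res m (insert a S)) P d) ≤ f * f := by
          rw [← LL_res hq]
          exact Dim.sq dim_inst (fun l hl => hN.lemB hf1 hl)
        have h9 : f * f + e * (f - 1) + m a + 1 ≤ (m a) ^ 2 := by
          obtain ⟨c, rfl⟩ : ∃ c, e = c + 1 := ⟨e - 1, by omega⟩
          obtain ⟨g, rfl⟩ : ∃ g, f = g + 1 := ⟨f - 1, by omega⟩
          rw [← hfe.1, Nat.add_sub_cancel]
          have := hfe.2
          nlinarith
        rw [← hT] at hf2
        omega
    · right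
      have h3 : 4 * T ≤ (m a - 1) ^ 2 := hN.sum_le (l := M - 1) hMl (by omega)
      have h5 : (m a - 1) ^ 2 ≤ 2 * (m a + 1).choose 2 := by
        obtain ⟨p, hp⟩ : ∃ p, m a = p + 1 := ⟨m a - 1, by omega⟩
        rw [hp, Nat.add_sub_cancel]
        have h7 := Nat.choose_two_right (p + 1 + 1)
        have h8 : (p + 1 + 1) * (p + 1 + 1 - 1) = (p + 1 + 1) * (p + 1) := rfl
        have h9 : 2 * ((p + 1 + 1) * (p + 1) / 2) = (p + 1 + 1) * (p + 1) := by
          refine Nat.mul_div_cancel' ?_
          rw [mul_comm]
          exact (Nat.even_mul_succ_self (p + 1)).two_dvd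
        rw [h7, h8, h9]
        nlinarith
      omega

/-- **The lower bound**, for generic points. -/
theorem lower_gen (hP : AlgebraicIndependent ℚ (fun ij : Fin n × Fin 2 => P ij.1 ij.2))
    {i₀ : Fin n} (hi₀ : i₀ ≠ q) {b : ℕ} {S : Finset (Fin n)} (hS : i₀ ∉ S) (hq : q ∉ S)
    (hb : ∀ j ∈ S, m j ≤ b) (hba : b ≤ m i₀)
    (hne : 1 ≤ finrank K (forms (res m (insert i₀ S)) P d)) :
    finrank K (forms (res m (insert i₀ S)) P d) +
      ∑ i ∈ insert i₀ S, (m i + 1).choose 2 ≤
      (d + 2).choose 2 + (m i₀).choose 2 + b * (b - 1) := by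
  classical
  have e3 := sum_insert_eq (m := m) (d := d) hP hq hS hi₀
  have e4 := LL_insert (m := m) (d := d) hP hq hS hi₀
  have h1 : 1 ≤ finrank K (LL P d q (res m S) (m i₀)) := by rwa [e4]
  have h2 := small_gen hP S hq b hb (m i₀) hba h1
  have h3 : ∑ j ∈ Finset.range (m i₀), finrank K (II P d q (res m S) j) ≤ (m i₀).choose 2 := by
    refine (Finset.sum_le_sum fun j hj => notfull hP h1 (Finset.mem_range.1 hj)).trans ?_
    rw [Finset.sum_range_id, Nat.choose_two_right]
  have h4 : b * (b - 1) + b = b ^ 2 := by
    rcases Nat.eq_zero_or_pos b with h | h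
    · subst h
      rfl
    · obtain ⟨c, rfl⟩ : ∃ c, b = c + 1 := ⟨b - 1, by omega⟩
      rw [Nat.add_sub_cancel]
      ring
  rw [Finset.sum_insert hS]
  rcases h2 with h2 | h2
  · omega
  · omega

end Pool.Agent.K4H28.SP
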